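import Mathlib

/-!
# Strassen's ball
-/

set_option autoImplicit false

namespace Pool.Agent.Q106.OP

open Finset MeasureTheory Filter
open scoped Topology

/-- Strassen's set on `[0, T]`: the integrals `f` of the functions `g` with `∫ g² ≤ 1`. -/
def InK (T : ℝ) (f : ℝ → ℝ) : Prop :=
  ∃ g : ℝ → ℝ, IntervalIntegrable g volume 0 T ∧ IntervalIntegrable (fun s => g s ^ 2) volume 0 T ∧
    (∫ s in (0 : ℝ)..T, g s ^ 2) ≤ 1 ∧ ∀ t, 0 ≤ t → t ≤ T → f t = ∫ s in (0 : ℝ)..t, g s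

/-- Cauchy–Schwarz. -/
theorem cs_int {g : ℝ → ℝ} {a b : ℝ} (hab : a ≤ b) (h1 : IntervalIntegrable g volume a b)
    (h2 : IntervalIntegrable (fun s => g s ^ 2) volume a b) :
    (∫ s in a..b, g s) ^ 2 ≤ (b - a) * ∫ s in a..b, g s ^ 2 := by
  obtain ⟨I, hI⟩ : ∃ I, I = ∫ s in a..b, g s := ⟨_, rfl⟩
  obtain ⟨J, hJ⟩ : ∃ J, J = ∫ s in a..b, g s ^ 2 := ⟨_, rfl⟩
  rw [← hI, ← hJ]
  have key : ∀ c : ℝ, 0 ≤ J - 2 * c * I + c ^ 2 * (b - a) := by
    intro c
    have e1 : (∫ s in a..b, (g s - c) ^ 2) = J - 2 * c * I + c ^ 2 * (b - a) := by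
      have e2 : (fun s => (g s - c) ^ 2) = fun s => (g s ^ 2 - 2 * c * g s) + c ^ 2 := by
        funext s
        ring
      rw [e2, intervalIntegral.integral_add (h2.sub (h1.const_mul (2 * c))) intervalIntegrable_const,
        intervalIntegral.integral_sub h2 (h1.const_mul (2 * c)), intervalIntegral.integral_const_mul,
        intervalIntegral.integral_const, ← hI, ← hJ, smul_eq_mul]
      ring
    rw [← e1]
    exact intervalIntegral.integral_nonneg hab (fun s _ => sq_nonneg _)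
  rcases hab.eq_or_lt with h | h
  · have e1 : I = 0 := by rw [hI, h, intervalIntegral.integral_same]
    rw [e1, h]
    simp
  · have hba : 0 < b - a := by linarith
    have e1 := key (I / (b - a))
    have e2 : J - 2 * (I / (b - a)) * I + (I / (b - a)) ^ 2 * (b - a) = J - I ^ 2 / (b - a) := by
      field_simp
      ring
    rw [e2] at e1
    have e3 : I ^ 2 / (b - a) ≤ J := by linarith
    rw [div_le_iff₀ hba] at e3
    linarith

section

variable {q T : ℕ}

/-- A polygon. -/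
theorem polygon (hq : 1 ≤ q) (Δ : ℕ → ℝ) {ρ : ℝ} (hρ0 : 0 ≤ ρ) (hρ1 : ρ ≤ 1)
    (hΔ : ρ ^ 2 * ∑ i ∈ range (q * T), (q : ℝ) * Δ i ^ 2 ≤ 1) :
    ∃ f, InK T f ∧ (∀ i ≤ q * T, f ((i : ℝ) / q) = ρ * ∑ l ∈ range i, Δ l) ∧
      ∀ i < q * T, ∀ t : ℝ, (i : ℝ) / q ≤ t → t ≤ ((i : ℝ) + 1) / q → |f t - f ((i : ℝ) / q)| ≤ |Δ i| := by
  have hq0 : (0 : ℝ) < q := by exact_mod_cast hq
  obtain ⟨g, hg⟩ : ∃ g : ℝ → ℝ, g = fun s => ρ * (q * Δ (⌈(q : ℝ) * s⌉₊ - 1)) := ⟨_, rfl⟩
  -- the value on a cell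
  have hcell : ∀ i : ℕ, ∀ s : ℝ, (i : ℝ) / q < s → s ≤ ((i : ℝ) + 1) / q → g s = ρ * (q * Δ i) := by
    intro i s h1 h2
    rw [div_lt_iff₀ hq0] at h1
    rw [le_div_iff₀ hq0] at h2
    have e1 : ⌈(q : ℝ) * s⌉₊ = i + 1 := by
      rw [Nat.ceil_eq_iff (by omega), Nat.add_sub_cancel]
      push_cast
      constructor <;> linarith
    rw [hg]
    simp only
    rw [e1, Nat.add_sub_cancel]
  have hsub : ∀ i : ℕ, ∀ t : ℝ, (i : ℝ) / q ≤ t → t ≤ ((i : ℝ) + 1) / q →
      IntervalIntegrable g volume ((i : ℝ) / q) t ∧ (∫ s in ((i : ℝ) / q)..t, g s) = ρ * (q * Δ i) * (t - (i : ℝ) / q) ∧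
      IntervalIntegrable (fun s => g s ^ 2) volume ((i : ℝ) / q) t ∧
      (∫ s in ((i : ℝ) / q)..t, g s ^ 2) = (ρ * (q * Δ i)) ^ 2 * (t - (i : ℝ) / q) := by
    intro i t h1 h2
    have e1 : ∀ s ∈ Set.Ioc ((i : ℝ) / q) t, g s = ρ * (q * Δ i) := fun s hs => hcell i s hs.1 (hs.2.trans h2)
    refine ⟨?_, ?_, ?_, ?_⟩
    · rw [intervalIntegrable_iff_integrableOn_Ioc_of_le h1]
      refine IntegrableOn.congr_fun (f := fun _ => ρ * (q * Δ i)) ?_ (fun s hs => (e1 s hs).symm) measurableSet_Ioc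
      exact (intervalIntegrable_iff_integrableOn_Ioc_of_le h1).1 intervalIntegrable_const
    · rw [intervalIntegral.integral_congr_ae (g := fun _ => ρ * (q * Δ i)) (Eventually.of_forall (fun s hs => e1 s (by
        rwa [Set.uIoc_of_le h1] at hs))), intervalIntegral.integral_const, smul_eq_mul]
      ring
    · rw [intervalIntegrable_iff_integrableOn_Ioc_of_le h1]
      refine IntegrableOn.congr_fun (f := fun _ => (ρ * (q * Δ i)) ^ 2) ?_ (fun s hs => by simp only [e1 s hs]) measurableSet_Ioc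
      exact (intervalIntegrable_iff_integrableOn_Ioc_of_le h1).1 intervalIntegrable_const
    · rw [intervalIntegral.integral_congr_ae (g := fun _ => (ρ * (q * Δ i)) ^ 2) (Eventually.of_forall (fun s hs => by
        rw [Set.uIoc_of_le h1] at hs
        rw [e1 s hs])), intervalIntegral.integral_const, smul_eq_mul]
      ring
  have hstep : ∀ i : ℕ, (i : ℝ) / q ≤ ((i : ℝ) + 1) / q := fun i => by gcongr; linarith
  have hlen : ∀ i : ℕ, ((i : ℝ) + 1) / q - (i : ℝ) / q = 1 / q := fun i => by ring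
  -- integrability and the integrals up to i / q
  have hint : ∀ i : ℕ, IntervalIntegrable g volume 0 ((i : ℝ) / q) ∧
      (∫ s in (0 : ℝ)..((i : ℝ) / q), g s) = ρ * ∑ l ∈ range i, Δ l ∧
      IntervalIntegrable (fun s => g s ^ 2) volume 0 ((i : ℝ) / q) ∧
      (∫ s in (0 : ℝ)..((i : ℝ) / q), g s ^ 2) = ρ ^ 2 * ∑ l ∈ range i, (q : ℝ) * Δ l ^ 2 := by
    intro i
    induction i with
    | zero => simp
    | succ i ih =>
      obtain ⟨a1, a2, a3, a4⟩ := ih
      obtain ⟨b1, b2, b3, b4⟩ := hsub i (((i : ℝ) + 1) / q) (hstep i) le_rfl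
      push_cast
      refine ⟨a1.trans b1, ?_, a3.trans b3, ?_⟩
      · rw [← intervalIntegral.integral_add_adjacent_intervals a1 b1, a2, b2, hlen, sum_range_succ]
        field_simp
      · rw [← intervalIntegral.integral_add_adjacent_intervals a3 b3, a4, b4, hlen, sum_range_succ]
        field_simp
  have hTq : ((q * T : ℕ) : ℝ) / q = T := by
    push_cast
    field_simp
  refine ⟨fun t => ∫ s in (0 : ℝ)..t, g s, ⟨g, ?_, ?_, ?_, fun t _ _ => rfl⟩, fun i _ => (hint i).2.1, ?_⟩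
  · have := (hint (q * T)).1
    rwa [hTq] at this
  · have := (hint (q * T)).2.2.1
    rwa [hTq] at this
  · have := (hint (q * T)).2.2.2
    rw [hTq] at this
    rw [this]
    exact hΔ
  · intro i _ t h1 h2
    obtain ⟨b1, b2, _, _⟩ := hsub i t h1 h2
    have e1 : (∫ s in (0 : ℝ)..t, g s) - (∫ s in (0 : ℝ)..((i : ℝ) / q), g s) = ρ * (q * Δ i) * (t - (i : ℝ) / q) := by
      rw [← intervalIntegral.integral_add_adjacent_intervals (hint i).1 b1, b2]
      ring
    show |(∫ s in (0 : ℝ)..t, g s) - (∫ s in (0 : ℝ)..((i : ℝ) / q), g s)| ≤ |Δ i|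
    rw [e1, abs_mul, abs_mul, abs_mul, abs_of_nonneg hρ0, abs_of_pos hq0, abs_of_nonneg (show 0 ≤ t - (i : ℝ) / q by linarith)]
    have e2 : t - (i : ℝ) / q ≤ 1 / q := by
      rw [← hlen i]
      linarith
    have e3 : (q : ℝ) * (t - (i : ℝ) / q) ≤ 1 := by
      calc (q : ℝ) * (t - (i : ℝ) / q) ≤ q * (1 / q) := mul_le_mul_of_nonneg_left e2 hq0.le
        _ = 1 := by field_simp
    have e4 : 0 ≤ (q : ℝ) * (t - (i : ℝ) / q) := mul_nonneg hq0.le (by linarith)
    calc ρ * (q * |Δ i|) * (t - (i : ℝ) / q) = ρ * (q * (t - (i : ℝ) / q)) * |Δ i| := by ring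
      _ ≤ 1 * |Δ i| := mul_le_mul_of_nonneg_right (by nlinarith) (abs_nonneg _)
      _ = |Δ i| := one_mul _

/-- The increments of a function in the ball. -/
theorem ball_incr (hq : 1 ≤ q) {f : ℝ → ℝ} (hf : InK T f) :
    (∑ i ∈ range (q * T), (q : ℝ) * (f (((i : ℝ) + 1) / q) - f ((i : ℝ) / q)) ^ 2 ≤ 1) ∧
      (∀ s t : ℝ, 0 ≤ s → s ≤ t → t ≤ T → (f t - f s) ^ 2 ≤ t - s) ∧ f 0 = 0 := by
  have hq0 : (0 : ℝ) < q := by exact_mod_cast hq
  obtain ⟨g, h1, h2, h3, h4⟩ := hf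
  have hT0 : (0 : ℝ) ≤ T := Nat.cast_nonneg T
  have hsub1 : ∀ s t : ℝ, 0 ≤ s → s ≤ t → t ≤ T → IntervalIntegrable g volume s t := fun s t a b c =>
    h1.mono_set (by
      rw [Set.uIcc_of_le b, Set.uIcc_of_le hT0]
      exact Set.Icc_subset_Icc a c)
  have hsub2 : ∀ s t : ℝ, 0 ≤ s → s ≤ t → t ≤ T → IntervalIntegrable (fun s => g s ^ 2) volume s t := fun s t a b c =>
    h2.mono_set (by
      rw [Set.uIcc_of_le b, Set.uIcc_of_le hT0]
      exact Set.Icc_subset_Icc a c)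
  have hdiff : ∀ s t : ℝ, 0 ≤ s → s ≤ t → t ≤ T → f t - f s = ∫ u in s..t, g u := by
    intro s t a b c
    rw [h4 t (by linarith) c, h4 s a (by linarith),
      ← intervalIntegral.integral_add_adjacent_intervals (hsub1 0 s le_rfl a (by linarith)) (hsub1 s t a b c)]
    ring
  have hcs : ∀ s t : ℝ, 0 ≤ s → s ≤ t → t ≤ T → (f t - f s) ^ 2 ≤ (t - s) * ∫ u in s..t, g u ^ 2 := by
    intro s t a b c
    rw [hdiff s t a b c]
    exact cs_int b (hsub1 s t a b c) (hsub2 s t a b c)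
  refine ⟨?_, ?_, ?_⟩
  · have e1 : ∀ i ∈ range (q * T), (q : ℝ) * (f (((i : ℝ) + 1) / q) - f ((i : ℝ) / q)) ^ 2 ≤
        ∫ u in ((i : ℝ) / q)..(((i + 1 : ℕ) : ℝ) / q), g u ^ 2 := by
      intro i hi
      rw [mem_range] at hi
      have a1 : (0 : ℝ) ≤ (i : ℝ) / q := by positivity
      have a2 : (i : ℝ) / q ≤ ((i : ℝ) + 1) / q := by gcongr; linarith
      have a3 : ((i : ℝ) + 1) / q ≤ T := by
        rw [div_le_iff₀ hq0]
        have : i + 1 ≤ T * q := by rw [mul_comm]; omega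
        exact_mod_cast this
      have e2 := hcs _ _ a1 a2 a3
      have e3 : ((i : ℝ) + 1) / q - (i : ℝ) / q = 1 / q := by ring
      rw [e3] at e2
      push_cast
      calc (q : ℝ) * (f (((i : ℝ) + 1) / q) - f ((i : ℝ) / q)) ^ 2 ≤ q * (1 / q * ∫ u in ((i : ℝ) / q)..(((i : ℝ) + 1) / q), g u ^ 2) :=
            mul_le_mul_of_nonneg_left e2 hq0.le
        _ = _ := by field_simp
    refine (sum_le_sum e1).trans ?_
    have e2 := intervalIntegral.sum_integral_adjacent_intervals (f := fun u => g u ^ 2) (μ := volume)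
      (a := fun i : ℕ => (i : ℝ) / q) (n := q * T) (fun k hk => hsub2 _ _ (by positivity) (by gcongr; simp) (by
        rw [div_le_iff₀ hq0]
        have : k + 1 ≤ T * q := by rw [mul_comm]; omega
        exact_mod_cast this))
    rw [e2]
    have e3 : ((q * T : ℕ) : ℝ) / q = T := by
      push_cast
      field_simp
    simp only [Nat.cast_zero, zero_div]
    rw [e3]
    exact h3
  · intro s t a b c
    refine (hcs s t a b c).trans ?_
    have e1 : (∫ u in s..t, g u ^ 2) ≤ 1 := by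
      refine le_trans ?_ h3
      refine intervalIntegral.integral_mono_interval a b c ?_ h2
      exact Eventually.of_forall (fun u => sq_nonneg _)
    nlinarith
  · rw [h4 0 le_rfl hT0, intervalIntegral.integral_same]

end

end Pool.Agent.Q106.OP
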