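import Pool.Agent.Q106.OP.Low
import Pool.Agent.Q106.OP.Ball

/-!
# From the increments to the functions
-/

set_option autoImplicit false

namespace Pool.Agent.Q106.OP

open Finset MeasureTheory Filter Pool.Agent.Q106.BR
open Pool.Agent.Q120.AD (hl)
open scoped Topology

/-- The centred and rescaled counting function after `x² - x`:
`F_x(t) = (#{n ∈ S : x² - x < n ≤ x² - x + t x} - t x / (2 log x)) / √x`. -/
noncomputable def F (S : Set ℕ) (x : ℕ) (t : ℝ) : ℝ :=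
  ((Set.ncard {n | n ∈ S ∧ (x : ℝ) ^ 2 - x < n ∧ (n : ℝ) ≤ (x : ℝ) ^ 2 - x + t * x} : ℝ) - t * x / (2 * Real.log x)) / √(x : ℝ)

/-- The facts. -/
structure Facts (S : Set ℕ) : Prop where
  up : ∀ q T k : ℕ, 1 ≤ q → ∀ᶠ x : ℕ in atTop, ∑ i ∈ range (q * T), (q : ℝ) * dl S q x i ^ 2 ≤ 1 + 1 / ((k : ℝ) + 1)
  osc : ∀ q T : ℕ, 1 ≤ q → ∀ᶠ x : ℕ in atTop, ∀ a b : ℕ, a ≤ b → b ≤ T * x → ((b : ℝ) - a) ≤ 1 / (q : ℝ) * x + 1 →
    (q : ℝ) * Z S x a b ^ 2 ≤ 9 * x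
  low : ∀ (q T k : ℕ), 1 ≤ q → ∀ d : Fin (q * T) → ℚ, ∑ i, (q : ℝ) * (d i : ℝ) ^ 2 < 1 → ∀ᶠ j : ℕ in atTop,
    ∃ x, 2 ^ j ≤ x ∧ x < 2 * 2 ^ j ∧ ∀ i : Fin (q * T), |dl S q x i - d i| ≤ 1 / ((k : ℝ) + 1)

section

variable {S : Set ℕ} {x : ℕ}

theorem cn_real (hx : 1 ≤ x) {t : ℝ} (ht : 0 ≤ t) :
    Set.ncard {n | n ∈ S ∧ (x : ℝ) ^ 2 - x < n ∧ (n : ℝ) ≤ (x : ℝ) ^ 2 - x + t * x} = cn S x 0 ⌊t * x⌋₊ := by
  classical
  unfold cn W
  rw [← Set.ncard_coe_finset]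
  congr 1
  ext n
  simp only [Set.mem_ofPred_eq, coe_filter, mem_Ioc]
  rw [← bs_cast hx, add_zero]
  have htx : 0 ≤ t * x := by positivity
  constructor
  · rintro ⟨h1, h2, h3⟩
    have h2' : bs x < n := by exact_mod_cast h2
    refine ⟨⟨h2', ?_⟩, h1⟩
    have h4 : n - bs x ≤ ⌊t * x⌋₊ := by
      apply Nat.le_floor
      rw [Nat.cast_sub h2'.le]
      linarith
    omega
  · rintro ⟨⟨h1, h2⟩, h3⟩
    refine ⟨h3, by exact_mod_cast h1, ?_⟩
    have h4 := Nat.floor_le htx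
    have h5 : (n : ℝ) ≤ bs x + ⌊t * x⌋₊ := by exact_mod_cast h2
    linarith

theorem cn_add {a b c : ℕ} (hab : a ≤ b) (hbc : b ≤ c) : cn S x a c = cn S x a b + cn S x b c := by
  classical
  unfold cn W
  rw [← card_union_of_disjoint, ← filter_union, Ioc_union_Ioc_eq_Ioc (by omega) (by omega)]
  apply disjoint_filter_filter
  rw [disjoint_left]
  intro n h1 h2
  rw [mem_Ioc] at h1 h2
  omega

theorem Z_add {a b c : ℕ} (hab : a ≤ b) (hbc : b ≤ c) : Z S x a c = Z S x a b + Z S x b c := by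
  unfold Z
  rw [cn_add hab hbc]
  push_cast
  ring

theorem Z_same (a : ℕ) : Z S x a a = 0 := by
  classical
  unfold Z cn W
  simp

theorem Z_sum (q i : ℕ) : Z S x 0 (en q x i) = ∑ l ∈ range i, Z S x (en q x l) (en q x (l + 1)) := by
  induction i with
  | zero => rw [en_zero, Z_same, sum_range_zero]
  | succ i ih => rw [Z_add (Nat.zero_le _) (en_mono q x (Nat.le_succ i)), ih, sum_range_succ]

/-- The function near a mesh point. -/
theorem F_near {q T i : ℕ} (hq : 1 ≤ q) (hx : 3 ≤ x)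
    (hosc : ∀ a b : ℕ, a ≤ b → b ≤ T * x → ((b : ℝ) - a) ≤ 1 / (q : ℝ) * x + 1 → (q : ℝ) * Z S x a b ^ 2 ≤ 9 * x)
    (hi : i < q * T) {t : ℝ} (h1 : (i : ℝ) / q ≤ t) (h2 : t ≤ ((i : ℝ) + 1) / q) :
    |F S x t - ∑ l ∈ range i, dl S q x l| ≤ 3 / √(q : ℝ) + 1 / √(x : ℝ) := by
  have hq0 : (0 : ℝ) < q := by exact_mod_cast hq
  have hx3 : (3 : ℝ) ≤ x := by exact_mod_cast hx
  have hx0 : (0 : ℝ) < x := by linarith
  have ht0 : 0 ≤ t := le_trans (by positivity) h1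
  have hsx : 0 < √(x : ℝ) := Real.sqrt_pos.2 hx0
  have hsq : 0 < √(q : ℝ) := Real.sqrt_pos.2 hq0
  have hL : 1 < Real.log (x : ℝ) := Pool.Agent.Q120.ET.one_lt_log hx
  have htx : 0 ≤ t * x := by positivity
  obtain ⟨b, hb⟩ : ∃ b, b = ⌊t * x⌋₊ := ⟨_, rfl⟩
  have hb1 : (b : ℝ) ≤ t * x := by rw [hb]; exact Nat.floor_le htx
  have hb2 : t * x < b + 1 := by rw [hb]; exact Nat.lt_floor_add_one _
  have hen := en_real (x := x) (i := i) hq
  have hix : (i : ℝ) * x / q ≤ t * x := by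
    calc (i : ℝ) * x / q = i / q * x := by ring
      _ ≤ t * x := mul_le_mul_of_nonneg_right h1 hx0.le
  have hab : en q x i ≤ b := by
    rw [hb]
    exact Nat.le_floor (hen.1.trans hix)
  have hbT : b ≤ T * x := by
    have e1 : t ≤ T := by
      refine h2.trans ?_
      rw [div_le_iff₀ hq0]
      have : i + 1 ≤ T * q := by rw [mul_comm]; omega
      exact_mod_cast this
    have e2 : (b : ℝ) ≤ T * x := hb1.trans (mul_le_mul_of_nonneg_right e1 hx0.le)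
    exact_mod_cast e2
  have hlen : ((b : ℝ) - en q x i) ≤ 1 / (q : ℝ) * x + 1 := by
    have e1 : t * x ≤ ((i : ℝ) + 1) / q * x := mul_le_mul_of_nonneg_right h2 hx0.le
    have e2 : ((i : ℝ) + 1) / q * x = i * x / q + 1 / q * x := by ring
    linarith [hen.2]
  have hZ := hosc _ _ hab hbT hlen
  have hF : F S x t - ∑ l ∈ range i, dl S q x l = Z S x (en q x i) b / √(x : ℝ) + (b - t * x) / (2 * Real.log x) / √(x : ℝ) := by
    unfold F
    rw [cn_real (by omega) ht0, ← hb]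
    have e1 : ∑ l ∈ range i, dl S q x l = Z S x 0 (en q x i) / √(x : ℝ) := by
      rw [Z_sum, sum_div]
      rfl
    have e2 : (cn S x 0 b : ℝ) = Z S x 0 b + b / (2 * Real.log x) := by
      unfold Z
      push_cast
      ring
    rw [e1, e2, Z_add (Nat.zero_le _) hab]
    ring
  rw [hF]
  refine (abs_add_le _ _).trans (add_le_add ?_ ?_)
  · rw [abs_div, abs_of_pos hsx, div_le_div_iff₀ hsx hsq]
    have e1 : (|Z S x (en q x i) b| * √(q : ℝ)) ^ 2 ≤ (3 * √(x : ℝ)) ^ 2 := by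
      rw [mul_pow, mul_pow, sq_abs, Real.sq_sqrt hq0.le, Real.sq_sqrt hx0.le]
      linarith
    exact le_of_sq_le_sq e1 (by positivity)
  · rw [abs_div, abs_of_pos hsx]
    apply div_le_div_of_nonneg_right _ hsx.le
    rw [abs_div, abs_of_pos (show 0 < 2 * Real.log (x : ℝ) by linarith), div_le_one (by linarith), abs_le]
    constructor <;> linarith

theorem exists_cell {q T : ℕ} (hq : 1 ≤ q) (hT : 1 ≤ T) {t : ℝ} (h0 : 0 ≤ t) (h1 : t ≤ T) :
    ∃ i < q * T, (i : ℝ) / q ≤ t ∧ t ≤ ((i : ℝ) + 1) / q := by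
  have hq0 : (0 : ℝ) < q := by exact_mod_cast hq
  have hqt : 0 ≤ q * t := by positivity
  have hpos : 1 ≤ q * T := Nat.mul_pos hq hT
  by_cases h : ⌊q * t⌋₊ < q * T
  · refine ⟨⌊q * t⌋₊, h, ?_, ?_⟩
    · rw [div_le_iff₀ hq0]
      have := Nat.floor_le hqt
      linarith
    · rw [le_div_iff₀ hq0]
      have := (Nat.lt_floor_add_one (q * t)).le
      linarith
  · push Not at h
    refine ⟨q * T - 1, by omega, ?_, ?_⟩
    · have e1 : ((q * T : ℕ) : ℝ) ≤ q * t := by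
        have e2 := Nat.floor_le hqt
        have e3 : ((q * T : ℕ) : ℝ) ≤ (⌊q * t⌋₊ : ℝ) := by exact_mod_cast h
        linarith
      rw [div_le_iff₀ hq0, Nat.cast_sub hpos]
      push_cast at e1 ⊢
      linarith
    · rw [le_div_iff₀ hq0, Nat.cast_sub hpos]
      push_cast
      have := mul_le_mul_of_nonneg_right h1 hq0.le
      linarith

theorem small_sqrt {c ε : ℝ} (hc : 0 < c) (hε : 0 < ε) : ∀ᶠ x : ℕ in atTop, c / √(x : ℝ) ≤ ε := by
  obtain ⟨N, hN⟩ := exists_nat_gt ((c / ε) ^ 2)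
  filter_upwards [eventually_ge_atTop (N + 1)] with x hx
  have h1 : (c / ε) ^ 2 ≤ x := by
    have : (N : ℝ) ≤ x := by exact_mod_cast (show N ≤ x by omega)
    linarith
  have hx0 : (0 : ℝ) < x := by exact_mod_cast (show 0 < x by omega)
  rw [div_le_iff₀ (Real.sqrt_pos.2 hx0)]
  have h2 : c / ε ≤ √(x : ℝ) := by
    rw [← Real.sqrt_sq (show 0 ≤ c / ε by positivity)]
    exact Real.sqrt_le_sqrt h1
  rw [div_le_iff₀ hε] at h2
  linarith

/-- **Every function is close to the ball.** -/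
theorem near (h : Facts S) {T : ℕ} (hT : 1 ≤ T) {ε : ℝ} (hε : 0 < ε) : ∀ᶠ x : ℕ in atTop, ∃ f, InK T f ∧
    ∀ t : ℝ, 0 ≤ t → t ≤ T → |F S x t - f t| ≤ ε := by
  have hT1 : (1 : ℝ) ≤ T := by exact_mod_cast hT
  obtain ⟨q, hq5, hq⟩ := ((small_sqrt (c := 5) (by norm_num) (show 0 < ε / 3 by linarith)).and (eventually_ge_atTop 1)).exists
  obtain ⟨k, hk⟩ := exists_nat_one_div_lt (show 0 < ε / (6 * T) by positivity)
  have hq0 : (0 : ℝ) < q := by exact_mod_cast hq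
  have hsq : 0 < √(q : ℝ) := Real.sqrt_pos.2 hq0
  filter_upwards [h.up q T k hq, h.osc q T hq, small_sqrt (c := 1) one_pos (show 0 < ε / 3 by linarith), eventually_ge_atTop 3]
    with x h1 h2 h3 h4
  obtain ⟨δ, hδ⟩ : ∃ δ, δ = 1 / ((k : ℝ) + 1) := ⟨_, rfl⟩
  rw [← hδ] at h1 hk
  have hδ0 : 0 < δ := by rw [hδ]; positivity
  have hδ1 : δ ≤ 1 := by
    rw [hδ, div_le_one (by positivity)]
    linarith [Nat.cast_nonneg (α := ℝ) k]
  obtain ⟨ρ, hρ⟩ : ∃ ρ, ρ = 1 / √(1 + δ) := ⟨_, rfl⟩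
  have hs1 : 1 ≤ √(1 + δ) := by
    rw [Real.one_le_sqrt]
    linarith
  have hρ0 : 0 ≤ ρ := by rw [hρ]; positivity
  have hρ1 : ρ ≤ 1 := by
    rw [hρ, div_le_one (by linarith)]
    exact hs1
  have hρ2 : ρ ^ 2 * (1 + δ) = 1 := by
    rw [hρ, div_pow, Real.sq_sqrt (by linarith)]
    field_simp
  have hρδ : 1 - ρ ≤ δ := by
    have : 1 ≤ ρ * (1 + δ) := by
      calc 1 = ρ ^ 2 * (1 + δ) := hρ2.symm
        _ ≤ ρ * (1 + δ) := by
          apply mul_le_mul_of_nonneg_right _ (by linarith)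
          nlinarith
    nlinarith
  have hΔ : ρ ^ 2 * ∑ i ∈ range (q * T), (q : ℝ) * dl S q x i ^ 2 ≤ 1 := by
    rw [← hρ2]
    exact mul_le_mul_of_nonneg_left h1 (sq_nonneg ρ)
  obtain ⟨f, hf, hf1, hf2⟩ := polygon hq (dl S q x) hρ0 hρ1 hΔ
  refine ⟨f, hf, ?_⟩
  intro t ht0 htT
  obtain ⟨i, hi, hi1, hi2⟩ := exists_cell hq hT ht0 htT
  have e1 := F_near hq h4 h2 hi hi1 hi2
  have e2 := hf2 i hi t hi1 hi2
  have e3 := hf1 i hi.le
  have hterm : (q : ℝ) * dl S q x i ^ 2 ≤ 2 := by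
    have : (q : ℝ) * dl S q x i ^ 2 ≤ ∑ i ∈ range (q * T), (q : ℝ) * dl S q x i ^ 2 :=
      single_le_sum (f := fun i => (q : ℝ) * dl S q x i ^ 2) (fun i _ => by positivity) (mem_range.2 hi)
    linarith
  have e4 : |dl S q x i| ≤ 2 / √(q : ℝ) := by
    rw [le_div_iff₀ hsq]
    refine le_of_sq_le_sq (?_ : (|dl S q x i| * √(q : ℝ)) ^ 2 ≤ 2 ^ 2) (by norm_num)
    rw [mul_pow, sq_abs, Real.sq_sqrt hq0.le]
    linarith
  have e5 : |∑ l ∈ range i, dl S q x l| ≤ 2 * T := by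
    refine le_of_sq_le_sq (?_ : |∑ l ∈ range i, dl S q x l| ^ 2 ≤ (2 * (T : ℝ)) ^ 2) (by positivity)
    rw [sq_abs]
    have e6 := sq_sum_le_card_mul_sum_sq (s := range i) (f := fun l => dl S q x l)
    rw [card_range] at e6
    have e7 : ∑ l ∈ range i, dl S q x l ^ 2 ≤ ∑ l ∈ range (q * T), dl S q x l ^ 2 :=
      sum_le_sum_of_subset_of_nonneg (range_subset_range.2 hi.le) (fun l _ _ => sq_nonneg _)
    have e8 : (q : ℝ) * ∑ l ∈ range (q * T), dl S q x l ^ 2 ≤ 2 := by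
      rw [mul_sum]
      linarith
    have e9 : (i : ℝ) ≤ q * T := by exact_mod_cast hi.le
    have e10 : 0 ≤ ∑ l ∈ range (q * T), dl S q x l ^ 2 := sum_nonneg (fun l _ => sq_nonneg _)
    calc (∑ l ∈ range i, dl S q x l) ^ 2 ≤ i * ∑ l ∈ range i, dl S q x l ^ 2 := e6
      _ ≤ (q * T) * ∑ l ∈ range (q * T), dl S q x l ^ 2 := mul_le_mul e9 e7 (sum_nonneg (fun l _ => sq_nonneg _)) (by positivity)
      _ = T * (q * ∑ l ∈ range (q * T), dl S q x l ^ 2) := by ring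
      _ ≤ T * 2 := mul_le_mul_of_nonneg_left e8 (by linarith)
      _ ≤ (2 * (T : ℝ)) ^ 2 := by nlinarith
  have e6 : |∑ l ∈ range i, dl S q x l - f ((i : ℝ) / q)| ≤ ε / 3 := by
    rw [e3]
    have e7 : ∑ l ∈ range i, dl S q x l - ρ * ∑ l ∈ range i, dl S q x l = (1 - ρ) * ∑ l ∈ range i, dl S q x l := by ring
    rw [e7, abs_mul, abs_of_nonneg (by linarith)]
    calc (1 - ρ) * |∑ l ∈ range i, dl S q x l| ≤ δ * (2 * T) := mul_le_mul hρδ e5 (abs_nonneg _) hδ0.le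
      _ ≤ ε / (6 * T) * (2 * T) := by gcongr
      _ = ε / 3 := by field_simp; norm_num
  have e7 : F S x t - f t = (F S x t - ∑ l ∈ range i, dl S q x l) + (∑ l ∈ range i, dl S q x l - f ((i : ℝ) / q)) +
      (f ((i : ℝ) / q) - f t) := by ring
  rw [e7]
  refine (abs_add_three _ _ _).trans ?_
  rw [abs_sub_comm (f ((i : ℝ) / q))]
  have e8 : 3 / √(q : ℝ) + 2 / √(q : ℝ) = 5 / √(q : ℝ) := by ring
  linarith

/-- A rational approximation from inside. -/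
theorem exists_rat_near {c ε : ℝ} (hε : 0 < ε) : ∃ q : ℚ, |(q : ℝ) - c| ≤ ε ∧ |(q : ℝ)| ≤ |c| := by
  rcases lt_trichotomy c 0 with h | h | h
  · obtain ⟨q, h1, h2⟩ := exists_rat_btwn (show c < min (c + ε) 0 by rw [lt_min_iff]; constructor <;> linarith)
    rw [lt_min_iff] at h2
    refine ⟨q, ?_, ?_⟩
    · rw [abs_le]
      constructor <;> linarith [h2.1]
    · rw [abs_of_neg h2.2, abs_of_neg h]
      linarith
  · refine ⟨0, ?_, ?_⟩
    · rw [h]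
      simpa using hε.le
    · rw [h]
      simp
  · obtain ⟨q, h1, h2⟩ := exists_rat_btwn (show max (c - ε) 0 < c by rw [max_lt_iff]; constructor <;> linarith)
    rw [max_lt_iff] at h1
    refine ⟨q, ?_, ?_⟩
    · rw [abs_le]
      constructor <;> linarith [h1.1]
    · rw [abs_of_pos h1.2, abs_of_pos h]
      exact h2.le

/-- **Every function of the ball is approximated in every block.** -/
theorem dense (h : Facts S) {T : ℕ} (hT : 1 ≤ T) {f : ℝ → ℝ} (hf : InK T f) {ε : ℝ} (hε : 0 < ε) :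
    ∀ᶠ j : ℕ in atTop, ∃ x, 2 ^ j ≤ x ∧ x < 2 * 2 ^ j ∧ ∀ t : ℝ, 0 ≤ t → t ≤ T → |F S x t - f t| ≤ ε := by
  have hT1 : (1 : ℝ) ≤ T := by exact_mod_cast hT
  obtain ⟨q, hq5, hq⟩ := ((small_sqrt (c := 5) (by norm_num) (show 0 < ε / 4 by linarith)).and (eventually_ge_atTop 1)).exists
  have hq0 : (0 : ℝ) < q := by exact_mod_cast hq
  have hq1 : (1 : ℝ) ≤ q := by exact_mod_cast hq
  have hsq : 0 < √(q : ℝ) := Real.sqrt_pos.2 hq0
  obtain ⟨hb1, hb2, hb3⟩ := ball_incr hq hf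
  obtain ⟨τ, hτ⟩ : ∃ τ, τ = min (1 / 2) (ε / (4 * T)) := ⟨_, rfl⟩
  have hτ0 : 0 < τ := by rw [hτ]; positivity
  have hτ1 : τ ≤ 1 / 2 := by rw [hτ]; exact min_le_left _ _
  have hτT : τ * T ≤ ε / 4 := by
    have : τ ≤ ε / (4 * T) := by rw [hτ]; exact min_le_right _ _
    calc τ * T ≤ ε / (4 * T) * T := mul_le_mul_of_nonneg_right this (by linarith)
      _ = ε / 4 := by field_simp
  -- the rational increments
  have hN : (0 : ℝ) < q * T := by positivity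
  have hch : ∀ i : ℕ, ∃ r : ℚ, |(r : ℝ) - (1 - τ) * (f (((i : ℝ) + 1) / q) - f ((i : ℝ) / q))| ≤ ε / (16 * (q * T)) ∧
      |(r : ℝ)| ≤ |(1 - τ) * (f (((i : ℝ) + 1) / q) - f ((i : ℝ) / q))| := fun i => exists_rat_near (by positivity)
  choose d hd1 hd2 using hch
  obtain ⟨k, hk⟩ := exists_nat_one_div_lt (show 0 < ε / (16 * (q * T)) by positivity)
  have hdsum : ∑ i : Fin (q * T), (q : ℝ) * ((d i : ℚ) : ℝ) ^ 2 < 1 := by
    have e1 : ∑ i : Fin (q * T), (q : ℝ) * ((d i : ℚ) : ℝ) ^ 2 = ∑ i ∈ range (q * T), (q : ℝ) * ((d i : ℚ) : ℝ) ^ 2 :=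
      (Finset.sum_range (fun i => (q : ℝ) * ((d i : ℚ) : ℝ) ^ 2)).symm
    rw [e1]
    have e2 : ∀ i ∈ range (q * T), (q : ℝ) * ((d i : ℚ) : ℝ) ^ 2 ≤
        (1 - τ) ^ 2 * ((q : ℝ) * (f (((i : ℝ) + 1) / q) - f ((i : ℝ) / q)) ^ 2) := by
      intro i _
      have e3 : ((d i : ℚ) : ℝ) ^ 2 ≤ ((1 - τ) * (f (((i : ℝ) + 1) / q) - f ((i : ℝ) / q))) ^ 2 := sq_le_sq.2 (hd2 i)
      have e4 : (q : ℝ) * ((d i : ℚ) : ℝ) ^ 2 ≤ q * ((1 - τ) * (f (((i : ℝ) + 1) / q) - f ((i : ℝ) / q))) ^ 2 :=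
        mul_le_mul_of_nonneg_left e3 hq0.le
      linarith
    refine lt_of_le_of_lt (sum_le_sum e2) ?_
    rw [← mul_sum]
    have e3 : (1 - τ) ^ 2 < 1 := by nlinarith
    have e4 : 0 ≤ (1 - τ) ^ 2 := sq_nonneg _
    nlinarith
  have h2 : Tendsto (fun i : ℕ => 2 ^ i) atTop atTop := tendsto_pow_atTop_atTop_of_one_lt (by norm_num)
  filter_upwards [h.low q T k hq (fun i => d i) hdsum, h2.eventually (eventually_forall_ge_atTop.2 (h.osc q T hq)),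
    h2.eventually (eventually_forall_ge_atTop.2 (small_sqrt (c := 1) one_pos (show 0 < ε / 8 by linarith))),
    h2.eventually_ge_atTop 3] with j h3 h4 h5 h6
  obtain ⟨x, hx1, hx2, hx3⟩ := h3
  refine ⟨x, hx1, hx2, ?_⟩
  intro t ht0 htT
  obtain ⟨i, hi, hi1, hi2⟩ := exists_cell hq hT ht0 htT
  have e1 := F_near hq (by omega) (h4 x hx1) hi hi1 hi2
  -- the sum of the increments
  have hfi : ∀ i : ℕ, i ≤ q * T → f ((i : ℝ) / q) = ∑ l ∈ range i, (f (((l : ℝ) + 1) / q) - f ((l : ℝ) / q)) := by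
    intro i _
    have e2 := Finset.sum_range_sub (fun l : ℕ => f ((l : ℝ) / q)) i
    push_cast at e2
    rw [e2]
    simp [hb3]
  have e2 : |∑ l ∈ range i, dl S q x l - (1 - τ) * f ((i : ℝ) / q)| ≤ ε / 8 := by
    rw [hfi i hi.le, mul_sum, ← sum_sub_distrib]
    refine (abs_sum_le_sum_abs _ _).trans ?_
    have e3 : ∀ l ∈ range i, |dl S q x l - (1 - τ) * (f (((l : ℝ) + 1) / q) - f ((l : ℝ) / q))| ≤ ε / (8 * (q * T)) := by
      intro l hlr
      rw [mem_range] at hlr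
      have e4 := hx3 ⟨l, by omega⟩
      simp only at e4
      have e5 := hd1 l
      have e6 : ε / (8 * ((q : ℝ) * T)) = ε / (16 * (q * T)) + ε / (16 * (q * T)) := by field_simp; norm_num
      have e7 : dl S q x l - (1 - τ) * (f (((l : ℝ) + 1) / q) - f ((l : ℝ) / q)) =
          (dl S q x l - d l) + (d l - (1 - τ) * (f (((l : ℝ) + 1) / q) - f ((l : ℝ) / q))) := by ring
      rw [e7, e6]
      exact (abs_add_le _ _).trans (add_le_add (e4.trans hk.le) e5)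
    refine (sum_le_sum e3).trans ?_
    rw [sum_const, card_range, nsmul_eq_mul]
    have e4 : (i : ℝ) ≤ q * T := by exact_mod_cast hi.le
    calc (i : ℝ) * (ε / (8 * (q * T))) ≤ (q * T) * (ε / (8 * (q * T))) := mul_le_mul_of_nonneg_right e4 (by positivity)
      _ = ε / 8 := by field_simp
  have a1 : (0 : ℝ) ≤ (i : ℝ) / q := by positivity
  have a2 : (i : ℝ) / q ≤ T := hi1.trans htT
  have e3 : |f ((i : ℝ) / q)| ≤ T := by
    refine le_of_sq_le_sq (?_ : |f ((i : ℝ) / q)| ^ 2 ≤ (T : ℝ) ^ 2) (by linarith)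
    rw [sq_abs]
    have := hb2 0 ((i : ℝ) / q) le_rfl a1 a2
    rw [hb3] at this
    nlinarith
  have e4 : |f t - f ((i : ℝ) / q)| ≤ 1 / √(q : ℝ) := by
    rw [le_div_iff₀ hsq]
    refine le_of_sq_le_sq (?_ : (|f t - f ((i : ℝ) / q)| * √(q : ℝ)) ^ 2 ≤ 1 ^ 2) (by norm_num)
    rw [mul_pow, sq_abs, Real.sq_sqrt hq0.le]
    have e5 := hb2 ((i : ℝ) / q) t a1 hi1 htT
    have e6 : t - (i : ℝ) / q ≤ 1 / q := by
      have : ((i : ℝ) + 1) / q - (i : ℝ) / q = 1 / q := by ring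
      linarith
    calc (f t - f ((i : ℝ) / q)) ^ 2 * q ≤ (1 / q) * q := mul_le_mul_of_nonneg_right (e5.trans e6) hq0.le
      _ = 1 ^ 2 := by field_simp
  have e5 : |(1 - τ) * f ((i : ℝ) / q) - f ((i : ℝ) / q)| ≤ ε / 4 := by
    have e6 : (1 - τ) * f ((i : ℝ) / q) - f ((i : ℝ) / q) = -(τ * f ((i : ℝ) / q)) := by ring
    rw [e6, abs_neg, abs_mul, abs_of_pos hτ0]
    exact (mul_le_mul_of_nonneg_left e3 hτ0.le).trans hτT
  have e6 := h5 x hx1
  have e7 : F S x t - f t = (F S x t - ∑ l ∈ range i, dl S q x l) + (∑ l ∈ range i, dl S q x l - (1 - τ) * f ((i : ℝ) / q)) +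
      ((1 - τ) * f ((i : ℝ) / q) - f ((i : ℝ) / q)) + (f ((i : ℝ) / q) - f t) := by ring
  rw [e7]
  refine (abs_add_le _ _).trans ?_
  have e8 := abs_add_three (F S x t - ∑ l ∈ range i, dl S q x l) (∑ l ∈ range i, dl S q x l - (1 - τ) * f ((i : ℝ) / q))
    ((1 - τ) * f ((i : ℝ) / q) - f ((i : ℝ) / q))
  rw [abs_sub_comm (f ((i : ℝ) / q)) (f t)]
  have e9 : 3 / √(q : ℝ) + 1 / √(q : ℝ) ≤ 5 / √(q : ℝ) := by
    rw [← add_div]
    apply div_le_div_of_nonneg_right _ hsq.le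
    norm_num
  linarith

end

end Pool.Agent.Q106.OP
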