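import Pool.Agent.Q106.OP.Up

/-!
# Finite-dimensional lower bound
-/

set_option autoImplicit false

namespace Pool.Agent.Q106.OP

open Finset MeasureTheory Filter Pool.Agent.Q120.ET Pool.Agent.Q120.MF Pool.Agent.Q120.AD Pool.Agent.Q120.NC
  Pool.Agent.Q120.TD Pool.Agent.Q166.Sq Pool.Agent.Q106.BR
open scoped Topology

/-- The mean of a cell. -/
theorem mu_cell {q : ℕ} (hq : 1 ≤ q) (T : ℕ) : ∀ᶠ x : ℕ in atTop, ∀ i < q * T,
    |mu (W x (en q x i) (en q x (i + 1))) - 1 / (q : ℝ) * x / (2 * Real.log x)| ≤ 2 := by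
  filter_upwards [mu_W T, hl.eventually_ge_atTop 1] with x h1 h2 i hi
  have e1 := h1 _ _ (en_mono q x (Nat.le_succ i)) (en_le hq (show i + 1 ≤ q * T by omega))
  have e2 := en_len (x := x) (i := i) hq
  obtain ⟨L, hL⟩ : ∃ L, L = Real.log (x : ℝ) := ⟨_, rfl⟩
  rw [← hL] at h2 e1 ⊢
  have e3 : |((en q x (i + 1) : ℝ) - en q x i) / (2 * L) - 1 / (q : ℝ) * x / (2 * L)| ≤ 1 := by
    rw [← sub_div, abs_div, abs_of_pos (show 0 < 2 * L by linarith), div_le_one (by linarith), abs_le]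
    constructor <;> linarith [e2.1, e2.2]
  have e1' := abs_le.1 e1
  have e3' := abs_le.1 e3
  rw [abs_le]
  constructor <;> linarith [e1'.1, e1'.2, e3'.1, e3'.2]

/-- From standard units to the normalised increments. -/
theorem Dv_dl {q : ℕ} (hq : 1 ≤ q) (T : ℕ) {c η : ℝ} (hc : |c| ≤ 1) (hη : 0 < η) (hη1 : η ≤ 1 / 4) :
    ∀ᶠ x : ℕ in atTop, ∀ i < q * T, ∀ S : Set ℕ, ∀ T' : Finset ℕ, (T'.card : ℝ) = cn S x (en q x i) (en q x (i + 1)) →
    Dv c η (W x (en q x i) (en q x (i + 1))) (Real.log x) T' → |√(q : ℝ) * dl S q x i - c| ≤ 6 * η := by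
  have hq0 : (0 : ℝ) < q := by exact_mod_cast hq
  filter_upwards [mu_cell hq T, mu_W T, ev_pw (q * (4 / η + 1 / η ^ 2)) 1 (show (0 : ℝ) < 1 by norm_num),
    hl.eventually_ge_atTop 1, eventually_ge_atTop 3] with x h1 h2 h3 h4 h5 i hi S T' hT' hD
  have hx3 : (3 : ℝ) ≤ x := by exact_mod_cast h5
  have hx0 : (0 : ℝ) < x := by linarith
  have e1 := h1 i hi
  have e2 := h2 _ _ (en_mono q x (Nat.le_succ i)) (en_le hq (show i + 1 ≤ q * T by omega))
  unfold dl Z
  rw [← hT']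
  unfold Dv at hD
  obtain ⟨L, hL⟩ : ∃ L, L = Real.log (x : ℝ) := ⟨_, rfl⟩
  obtain ⟨r, hr⟩ : ∃ r, r = √(1 / (q : ℝ) * x) := ⟨_, rfl⟩
  have hrx : 0 < 1 / (q : ℝ) * x := by positivity
  have hr0 : 0 < r := by rw [hr]; exact Real.sqrt_pos.2 hrx
  have hr2 : r ^ 2 = 1 / (q : ℝ) * x := by rw [hr]; exact Real.sq_sqrt hrx.le
  obtain ⟨M, hM⟩ : ∃ M, M = mu (W x (en q x i) (en q x (i + 1))) := ⟨_, rfl⟩
  obtain ⟨ℓ, hℓ⟩ : ∃ ℓ, ℓ = (en q x (i + 1) : ℝ) - en q x i := ⟨_, rfl⟩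
  rw [← hM, ← hL, ← hr2] at e1
  rw [← hM, ← hL, ← hℓ] at e2
  rw [← hM, ← hL] at hD
  rw [← hL, pow_one, Real.rpow_one] at h3
  rw [← hL] at h4
  rw [← hL, ← hℓ]
  have hL0 : 0 < L := by linarith
  have hLr : (4 / η + 1 / η ^ 2) * L ≤ r ^ 2 := by
    rw [hr2, show 1 / (q : ℝ) * x = x / q by ring, le_div_iff₀ hq0]
    linarith
  have hLr1 : 4 * L ≤ η * r ^ 2 := by
    have e3 : 4 / η * L ≤ r ^ 2 := by
      have : 0 ≤ 1 / η ^ 2 * L := by positivity
      nlinarith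
    rw [div_mul_eq_mul_div, div_le_iff₀ hη] at e3
    linarith
  have h1r : 1 ≤ η * r := by
    have e3 : 1 / η ^ 2 ≤ r ^ 2 := by
      have e4 : 0 ≤ 4 / η * L := by positivity
      have e5 : 1 / η ^ 2 * 1 ≤ 1 / η ^ 2 * L := mul_le_mul_of_nonneg_left h4 (by positivity)
      nlinarith
    rw [div_le_iff₀ (by positivity)] at e3
    refine le_of_sq_le_sq (?_ : (1 : ℝ) ^ 2 ≤ (η * r) ^ 2) (by positivity)
    rw [mul_pow]
    linarith
  obtain ⟨p, hp⟩ : ∃ p, p = √(2 * M * L) := ⟨_, rfl⟩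
  have hM0 : 0 ≤ M := by rw [hM]; exact mu_nonneg
  have hp0 : 0 ≤ p := by rw [hp]; exact Real.sqrt_nonneg _
  have hp2 : p ^ 2 = 2 * M * L := by rw [hp]; exact Real.sq_sqrt (by positivity)
  rw [← hp] at hD
  have hpr : |p - r| ≤ η * r := by
    have e3 : |p ^ 2 - r ^ 2| ≤ η * r * r := by
      rw [hp2]
      have e4 : 2 * M * L - r ^ 2 = 2 * L * (M - r ^ 2 / (2 * L)) := by field_simp
      rw [e4, abs_mul, abs_of_pos (show 0 < 2 * L by linarith)]
      calc 2 * L * |M - r ^ 2 / (2 * L)| ≤ 2 * L * 2 := mul_le_mul_of_nonneg_left e1 (by linarith)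
        _ = 4 * L := by ring
        _ ≤ η * r ^ 2 := hLr1
        _ = η * r * r := by ring
    have e4 : p ^ 2 - r ^ 2 = (p - r) * (p + r) := by ring
    rw [e4, abs_mul, abs_of_pos (show 0 < p + r by linarith)] at e3
    have e5 : |p - r| * r ≤ |p - r| * (p + r) := mul_le_mul_of_nonneg_left (by linarith) (abs_nonneg _)
    exact le_of_mul_le_mul_right (e5.trans e3) hr0
  have e3 : √(q : ℝ) * (((T'.card : ℝ) - ℓ / (2 * L)) / √(x : ℝ)) = ((T'.card : ℝ) - ℓ / (2 * L)) / r := by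
    have e4 : √(x : ℝ) = √(q : ℝ) * r := by
      rw [hr, ← Real.sqrt_mul hq0.le]
      congr 1
      field_simp
    have e5 : 0 < √(q : ℝ) := Real.sqrt_pos.2 hq0
    rw [e4]
    field_simp
  rw [e3]
  have hpr' := abs_le.1 hpr
  have hD' := abs_le.1 hD
  have e2' := abs_le.1 e2
  have e4 : |c * (p - r)| ≤ η * r := by
    rw [abs_mul]
    calc |c| * |p - r| ≤ 1 * |p - r| := mul_le_mul_of_nonneg_right hc (abs_nonneg _)
      _ ≤ η * r := by rw [one_mul]; exact hpr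
  have e4' := abs_le.1 e4
  have e5 : 2 * η * p ≤ 3 * η * r := by nlinarith [mul_pos hη hr0]
  have e6 : |((T'.card : ℝ) - ℓ / (2 * L)) - c * r| ≤ 6 * η * r := by
    rw [abs_le]
    constructor <;> nlinarith
  have e7 : ((T'.card : ℝ) - ℓ / (2 * L)) / r - c = (((T'.card : ℝ) - ℓ / (2 * L)) - c * r) / r := by field_simp
  rw [e7, abs_div, abs_of_pos hr0, div_le_iff₀ hr0]
  exact e6

/-- The probability of a given deviation in a cell. -/
theorem low_cell {q : ℕ} (hq : 1 ≤ q) (T : ℕ) {c η : ℝ} (hc : |c| ≤ 1) (hη : 0 < η) (hη1 : η ≤ 1) :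
    ∀ᶠ x : ℕ in atTop, ∀ i < q * T, Real.exp (-((|c| + η) ^ 2 * Real.log x)) ≤
      ∑ T' ∈ (W x (en q x i) (en q x (i + 1))).powerset with
        Dv c η (W x (en q x i) (en q x (i + 1))) (Real.log x) T', cramerOn (W x (en q x i) (en q x (i + 1))) T' := by
  have hq0 : (0 : ℝ) < q := by exact_mod_cast hq
  obtain ⟨L0, hL0, hwin⟩ := window_any hc hη hη1
  filter_upwards [mu_cell hq T, ev_pw (q * (2 * L0 + 4)) 2 (show (0 : ℝ) < 1 by norm_num), hl.eventually_ge_atTop L0,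
    eventually_ge_atTop 3] with x h1 h2 h3 h4 i hi
  have hx3 : (3 : ℝ) ≤ x := by exact_mod_cast h4
  have e1 := (abs_le.1 (h1 i hi)).1
  obtain ⟨L, hL⟩ : ∃ L, L = Real.log (x : ℝ) := ⟨_, rfl⟩
  rw [← hL] at h2 h3 e1 ⊢
  rw [Real.rpow_one] at h2
  have hL1 : 1 ≤ L := by linarith
  refine hwin _ L (fun n hn => (mem_W h4 hn).2) (fun n hn => ?_) h3 ?_
  · refine one_div_le_one_div_of_le (by linarith) ?_
    have e2 := (mem_W h4 hn).1
    have e3 : L ≤ Real.log (n : ℝ) := by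
      rw [hL]
      exact Real.log_le_log (by linarith) (by exact_mod_cast e2)
    linarith
  · have e2 : (L0 + 2) * L ≤ 1 / (q : ℝ) * x / (2 * L) := by
      rw [le_div_iff₀ (by linarith), one_div, inv_mul_eq_div, le_div_iff₀ hq0]
      calc (L0 + 2) * L * (2 * L) * q = q * (2 * L0 + 4) * L ^ 2 := by ring
        _ ≤ x := h2
    nlinarith

section

variable {Ω : Type*} [MeasurableSpace Ω] {μ : Measure Ω} [IsProbabilityMeasure μ] {A : Ω → Set ℕ}

/-- The union of the cells. -/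
def WW (q N x : ℕ) : Finset ℕ := (univ : Finset (Fin N)).biUnion (fun i => W x (en q x i) (en q x (i + 1)))

theorem mem_WW {q T x n : ℕ} (hq : 1 ≤ q) (h : n ∈ WW q (q * T) x) : bs x < n ∧ n ≤ bs x + T * x := by
  unfold WW W at h
  rw [mem_biUnion] at h
  obtain ⟨i, _, hi⟩ := h
  rw [mem_Ioc] at hi
  have := en_le (x := x) (T := T) hq (show (i : ℕ) + 1 ≤ q * T by have := i.2; omega)
  omega

/-- **The finite-dimensional lower bound.** -/
theorem low_fin (hA : IsCramer μ A) {q : ℕ} (hq : 1 ≤ q) (T : ℕ) (d : Fin (q * T) → ℝ) (hd : ∑ i, (q : ℝ) * d i ^ 2 < 1)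
    {ε : ℝ} (hε : 0 < ε) : ∀ᵐ ω ∂μ, ∀ᶠ j : ℕ in atTop, ∃ x, 2 ^ j ≤ x ∧ x < 2 * 2 ^ j ∧
      ∀ i : Fin (q * T), |dl (A ω) q x i - d i| ≤ ε := by
  classical
  have hq0 : (0 : ℝ) < q := by exact_mod_cast hq
  have hq1 : (1 : ℝ) ≤ q := by exact_mod_cast hq
  obtain ⟨N, hN⟩ : ∃ N, N = q * T := ⟨_, rfl⟩
  have hN0 : (0 : ℝ) ≤ N := Nat.cast_nonneg N
  obtain ⟨c, hc⟩ : ∃ c : Fin (q * T) → ℝ, c = fun i => √(q : ℝ) * d i := ⟨_, rfl⟩
  have hsq : 0 < √(q : ℝ) := Real.sqrt_pos.2 hq0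
  have hsq1 : 1 ≤ √(q : ℝ) := by rwa [Real.one_le_sqrt]
  have hc2 : ∀ i, c i ^ 2 = q * d i ^ 2 := by
    intro i
    rw [hc]
    simp only
    rw [mul_pow, Real.sq_sqrt hq0.le]
  have hcs : ∑ i, c i ^ 2 < 1 := by
    rw [sum_congr rfl (fun i _ => hc2 i)]
    exact hd
  have hc1 : ∀ i, |c i| ≤ 1 := by
    intro i
    rw [← sq_le_one_iff_abs_le_one]
    have : c i ^ 2 ≤ ∑ i, c i ^ 2 := single_le_sum (f := fun i => c i ^ 2) (fun i _ => sq_nonneg _) (mem_univ i)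
    linarith
  obtain ⟨s, hs⟩ : ∃ s, s = ∑ i, c i ^ 2 := ⟨_, rfl⟩
  rw [← hs] at hcs
  obtain ⟨η, hη⟩ : ∃ η, η = min (1 / 4) (min (ε / 6) ((1 - s) / (6 * (N + 1)))) := ⟨_, rfl⟩
  have hη0 : 0 < η := by
    rw [hη]
    have : 0 < 1 - s := by linarith
    positivity
  have hη14 : η ≤ 1 / 4 := by rw [hη]; exact min_le_left _ _
  have hηε : 6 * η ≤ ε := by
    have : η ≤ ε / 6 := by rw [hη]; exact (min_le_right _ _).trans (min_le_left _ _)
    linarith
  have hηs : 6 * (N + 1) * η ≤ 1 - s := by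
    have : η ≤ (1 - s) / (6 * (N + 1)) := by rw [hη]; exact (min_le_right _ _).trans (min_le_right _ _)
    rw [le_div_iff₀ (by positivity)] at this
    linarith
  obtain ⟨κ, hκ⟩ : ∃ κ, κ = ∑ i, (|c i| + η) ^ 2 := ⟨_, rfl⟩
  have hκ0 : 0 ≤ κ := by rw [hκ]; exact sum_nonneg (fun i _ => sq_nonneg _)
  have hκ1 : κ < 1 := by
    have e1 : κ ≤ ∑ i : Fin (q * T), (c i ^ 2 + 3 * η) := by
      rw [hκ]
      refine sum_le_sum (fun i _ => ?_)
      rw [add_sq, sq_abs]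
      have := hc1 i
      have e2 : |c i| * η ≤ 1 * η := mul_le_mul_of_nonneg_right this hη0.le
      nlinarith
    rw [sum_add_distrib, sum_const, card_univ, Fintype.card_fin, nsmul_eq_mul, ← hs, ← hN] at e1
    nlinarith
  have hT1 : (0 : ℝ) < T + 1 := by positivity
  have hmain : ∀ᶠ K : ℕ in atTop, μ.real {ω | ∀ l ∈ range (K / (T + 1)),
      ¬ (∀ i ∈ (univ : Finset (Fin (q * T))), Dv (c i) η (W (K + l * (T + 1)) (en q (K + l * (T + 1)) i) (en q (K + l * (T + 1)) (i + 1)))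
        (Real.log ((K + l * (T + 1) : ℕ) : ℝ)) (tr A (WW q (q * T) (K + l * (T + 1))) ω ∩
          W (K + l * (T + 1)) (en q (K + l * (T + 1)) i) (en q (K + l * (T + 1)) (i + 1))))} ≤ (K : ℝ) ^ (-(1 : ℝ)) := by
    have hcells : ∀ᶠ K : ℕ in atTop, ∀ x ≥ K, ∀ i : Fin (q * T), Real.exp (-((|c i| + η) ^ 2 * Real.log x)) ≤
        ∑ T' ∈ (W x (en q x i) (en q x (i + 1))).powerset with
          Dv (c i) η (W x (en q x i) (en q x (i + 1))) (Real.log x) T', cramerOn (W x (en q x i) (en q x (i + 1))) T' := by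
      refine eventually_forall_ge_atTop.2 ?_
      rw [eventually_all]
      intro i
      filter_upwards [low_cell hq T (hc1 i) hη0 (by linarith)] with x hx
      exact hx i i.2
    filter_upwards [hcells, ev_pw (4 * (T + 1)) 1 (show (0 : ℝ) < 1 - κ by linarith), eventually_ge_atTop (2 * (T + 1) + 3),
      hl.eventually_ge_atTop 1] with K h1 h2 h3 h4
    have hK3 : (3 : ℝ) ≤ K := by exact_mod_cast (show 3 ≤ K by omega)
    have hK0 : (0 : ℝ) < K := by linarith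
    have hx : ∀ l ∈ range (K / (T + 1)), K ≤ K + l * (T + 1) ∧ K + l * (T + 1) < 2 * K := by
      intro l hlr
      rw [mem_range] at hlr
      have e1 : (l + 1) * (T + 1) ≤ K := by
        have := Nat.div_mul_le_self K (T + 1)
        have e2 : (l + 1) * (T + 1) ≤ K / (T + 1) * (T + 1) := Nat.mul_le_mul_right _ hlr
        omega
      have e2 : (l + 1) * (T + 1) = l * (T + 1) + (T + 1) := by ring
      omega
    have hdis : ∀ l ∈ range (K / (T + 1)), ∀ l' ∈ range (K / (T + 1)), l < l' →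
        Disjoint (WW q (q * T) (K + l * (T + 1))) (WW q (q * T) (K + l' * (T + 1))) := by
      intro l _ l' _ hll
      rw [disjoint_left]
      intro n hn hn'
      have e1 := mem_WW hq hn
      have e2 := mem_WW hq hn'
      obtain ⟨x, hx⟩ : ∃ x, x = K + l * (T + 1) := ⟨_, rfl⟩
      obtain ⟨y, hy⟩ : ∃ y, y = K + l' * (T + 1) := ⟨_, rfl⟩
      rw [← hx] at e1
      rw [← hy] at e2
      have e3 : x + (T + 1) ≤ y := by
        have : (l + 1) * (T + 1) ≤ l' * (T + 1) := Nat.mul_le_mul_right _ hll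
        have e4 : (l + 1) * (T + 1) = l * (T + 1) + (T + 1) := by ring
        omega
      have e4 : bs x + T * x ≤ bs y := by
        have hx1 : 1 ≤ x := by omega
        unfold bs
        have e5 : (x + (T + 1)) * (x + T) ≤ y * (y - 1) := Nat.mul_le_mul e3 (by omega)
        have e6 : x * (x - 1) + T * x ≤ (x + (T + 1)) * (x + T) := by
          have e7 : x * (x - 1) ≤ x * x := Nat.mul_le_mul_left x (by omega)
          nlinarith
        omega
      omega
    have hp : ∀ l ∈ range (K / (T + 1)), (2 * (K : ℝ)) ^ (-κ) ≤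
        ∑ T' ∈ (WW q (q * T) (K + l * (T + 1))).powerset with
          (∀ i ∈ (univ : Finset (Fin (q * T))), Dv (c i) η (W (K + l * (T + 1)) (en q (K + l * (T + 1)) i) (en q (K + l * (T + 1)) (i + 1)))
            (Real.log ((K + l * (T + 1) : ℕ) : ℝ)) (T' ∩ W (K + l * (T + 1)) (en q (K + l * (T + 1)) i) (en q (K + l * (T + 1)) (i + 1)))),
          cramerOn (WW q (q * T) (K + l * (T + 1))) T' := by
      intro l hlr
      obtain ⟨hx1, hx2⟩ := hx l hlr
      obtain ⟨x, hxx⟩ : ∃ x, x = K + l * (T + 1) := ⟨_, rfl⟩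
      rw [← hxx] at hx1 hx2 ⊢
      have e1 := sum_all (fun i : Fin (q * T) => W x (en q x i) (en q x (i + 1)))
        (fun i T' => Dv (c i) η (W x (en q x i) (en q x (i + 1))) (Real.log x) T') univ
        (fun i _ k _ hik => W_disj (fun h => hik (Fin.ext h)))
      unfold WW
      have e0 : ∀ u v w : ℝ, u = v → w ≤ u → w ≤ v := fun u v w h1 h2 => h1 ▸ h2
      refine e0 _ _ _ (e1.symm.trans (by congr)) ?_
      have e2 : ∏ i : Fin (q * T), Real.exp (-((|c i| + η) ^ 2 * Real.log x)) ≤ ∏ i : Fin (q * T),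
          ∑ T' ∈ (W x (en q x i) (en q x (i + 1))).powerset with
          Dv (c i) η (W x (en q x i) (en q x (i + 1))) (Real.log x) T', cramerOn (W x (en q x i) (en q x (i + 1))) T' :=
        prod_le_prod (fun i _ => (Real.exp_pos _).le) (fun i _ => h1 x hx1 i)
      refine le_trans ?_ e2
      rw [← Real.exp_sum, sum_neg_distrib, ← sum_mul, ← hκ, Real.rpow_def_of_pos (by positivity)]
      refine Real.exp_le_exp.2 ?_
      have e3 : Real.log (x : ℝ) ≤ Real.log (2 * K) := by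
        refine Real.log_le_log (by exact_mod_cast (show 0 < x by omega)) ?_
        exact_mod_cast hx2.le
      nlinarith
    have hnone := none_le hA (range (K / (T + 1))) (fun l => WW q (q * T) (K + l * (T + 1)))
      (fun l hlr n hn => by
        have e1 := (hx l hlr).1
        unfold WW at hn
        rw [mem_biUnion] at hn
        obtain ⟨i, _, hi⟩ := hn
        exact (mem_W (by omega) hi).2)
      (fun i hi j hj hij => by
        rcases lt_or_gt_of_ne hij with h | h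
        · exact hdis i hi j hj h
        · exact (hdis j hj i hi h).symm)
      (fun l T' => ∀ i ∈ (univ : Finset (Fin (q * T))), Dv (c i) η (W (K + l * (T + 1)) (en q (K + l * (T + 1)) i) (en q (K + l * (T + 1)) (i + 1)))
            (Real.log ((K + l * (T + 1) : ℕ) : ℝ)) (T' ∩ W (K + l * (T + 1)) (en q (K + l * (T + 1)) i) (en q (K + l * (T + 1)) (i + 1)))) hp
    refine hnone.trans ?_
    rw [card_range]
    have e1 : (K : ℝ) / (2 * (T + 1)) ≤ ((K / (T + 1) : ℕ) : ℝ) := by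
      have e2 : K < (T + 1) * (K / (T + 1) + 1) := Nat.lt_mul_div_succ K (by omega)
      have e3 : (K : ℝ) < (T + 1) * (((K / (T + 1) : ℕ) : ℝ) + 1) := by exact_mod_cast e2
      have e4 : (2 : ℝ) * (T + 1) ≤ K := by exact_mod_cast (show 2 * (T + 1) ≤ K by omega)
      rw [div_le_iff₀ (by positivity)]
      nlinarith
    have e2 : (K : ℝ) ^ (-κ) / 2 ≤ (2 * (K : ℝ)) ^ (-κ) := by
      rw [Real.mul_rpow (by norm_num) hK0.le]
      have e21 : (1 : ℝ) / 2 ≤ 2 ^ (-κ) := by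
        calc (1 : ℝ) / 2 = 2 ^ (-(1 : ℝ)) := by rw [Real.rpow_neg_one]; norm_num
          _ ≤ _ := Real.rpow_le_rpow_of_exponent_le (by norm_num) (by linarith)
      have e22 : 0 ≤ (K : ℝ) ^ (-κ) := by positivity
      nlinarith
    rw [Real.rpow_def_of_pos hK0]
    refine Real.exp_le_exp.2 ?_
    have e3 : (K : ℝ) / (2 * (T + 1)) * ((K : ℝ) ^ (-κ) / 2) ≤ ((K / (T + 1) : ℕ) : ℝ) * (2 * (K : ℝ)) ^ (-κ) :=
      mul_le_mul e1 e2 (by positivity) (Nat.cast_nonneg _)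
    have e4 : (K : ℝ) / (2 * (T + 1)) * ((K : ℝ) ^ (-κ) / 2) = (K : ℝ) ^ (1 - κ) / (4 * (T + 1)) := by
      rw [sub_eq_add_neg, Real.rpow_add hK0, Real.rpow_one]
      field_simp
      norm_num
    have e5 : Real.log (K : ℝ) ≤ (K : ℝ) ^ (1 - κ) / (4 * (T + 1)) := by
      rw [le_div_iff₀ (by positivity)]
      rw [pow_one] at h2
      linarith
    linarith
  have h3 := ae_all_grid (μ := μ) (τ := ℕ) (fun _ => ({0} : Finset ℕ))
    (fun j _ => {ω | ∀ l ∈ range (2 ^ j / (T + 1)),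
      ¬ (∀ i ∈ (univ : Finset (Fin (q * T))), Dv (c i) η (W (2 ^ j + l * (T + 1)) (en q (2 ^ j + l * (T + 1)) i) (en q (2 ^ j + l * (T + 1)) (i + 1)))
        (Real.log ((2 ^ j + l * (T + 1) : ℕ) : ℝ)) (tr A (WW q (q * T) (2 ^ j + l * (T + 1))) ω ∩
          W (2 ^ j + l * (T + 1)) (en q (2 ^ j + l * (T + 1)) i) (en q (2 ^ j + l * (T + 1)) (i + 1))))})
    (fun i => (((2 ^ i : ℕ) : ℝ)) ^ (-(1 : ℝ))) (summable_two_pow (by positivity)) (by
      filter_upwards [tendsto_two_pow.eventually hmain] with i hi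
      rw [sum_singleton]
      exact hi)
  have hconv : ∀ᶠ K : ℕ in atTop, ∀ x ≥ K, ∀ i : Fin (q * T), ∀ S : Set ℕ, ∀ T' : Finset ℕ,
      (T'.card : ℝ) = cn S x (en q x i) (en q x (i + 1)) →
      Dv (c i) η (W x (en q x i) (en q x (i + 1))) (Real.log x) T' → |√(q : ℝ) * dl S q x i - c i| ≤ 6 * η := by
    refine eventually_forall_ge_atTop.2 ?_
    rw [eventually_all]
    intro i
    filter_upwards [Dv_dl hq T (hc1 i) hη0 hη14] with x hx
    exact hx i i.2
  filter_upwards [h3] with ω hω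
  filter_upwards [hω, tendsto_two_pow.eventually hconv] with j h1 h2
  have h1' := h1 0 (mem_singleton_self 0)
  obtain ⟨K, hK⟩ : ∃ K : ℕ, K = 2 ^ j := ⟨_, rfl⟩
  rw [← hK] at h1' h2 ⊢
  obtain ⟨l, hlr, hl2⟩ : ∃ l, l ∈ range (K / (T + 1)) ∧ (∀ i ∈ (univ : Finset (Fin (q * T))),
      Dv (c i) η (W (K + l * (T + 1)) (en q (K + l * (T + 1)) i) (en q (K + l * (T + 1)) (i + 1)))
        (Real.log ((K + l * (T + 1) : ℕ) : ℝ)) (tr A (WW q (q * T) (K + l * (T + 1))) ω ∩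
          W (K + l * (T + 1)) (en q (K + l * (T + 1)) i) (en q (K + l * (T + 1)) (i + 1)))) := by
    by_contra hcon
    exact h1' (fun l hl hP => hcon ⟨l, hl, hP⟩)
  rw [mem_range] at hlr
  have hxK : K ≤ K + l * (T + 1) ∧ K + l * (T + 1) < 2 * K := by
    have e1 : (l + 1) * (T + 1) ≤ K := by
      have := Nat.div_mul_le_self K (T + 1)
      have e2 : (l + 1) * (T + 1) ≤ K / (T + 1) * (T + 1) := Nat.mul_le_mul_right _ hlr
      omega
    have e2 : (l + 1) * (T + 1) = l * (T + 1) + (T + 1) := by ring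
    omega
  refine ⟨K + l * (T + 1), hxK.1, hxK.2, ?_⟩
  intro i
  obtain ⟨x, hx⟩ : ∃ x, x = K + l * (T + 1) := ⟨_, rfl⟩
  rw [← hx] at hl2 hxK ⊢
  have e1 := hl2 i (mem_univ i)
  rw [tr_inter (by
    unfold WW
    exact subset_biUnion_of_mem (fun i : Fin (q * T) => W x (en q x i) (en q x (i + 1))) (mem_univ i))] at e1
  have e2 := h2 x hxK.1 i (A ω) _ (by rw [cn_eq]) e1
  have e3 : √(q : ℝ) * dl (A ω) q x i - c i = √(q : ℝ) * (dl (A ω) q x i - d i) := by
    rw [hc]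
    ring
  rw [e3, abs_mul, abs_of_pos hsq] at e2
  have e4 : |dl (A ω) q x i - d i| ≤ √(q : ℝ) * |dl (A ω) q x i - d i| := le_mul_of_one_le_left (abs_nonneg _) hsq1
  linarith

end

end Pool.Agent.Q106.OP
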