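import Pool.Agent.Q106.OP.Win

/-!
# Finite-dimensional upper bound and oscillation
-/

set_option autoImplicit false

namespace Pool.Agent.Q106.OP

open Finset MeasureTheory Filter Pool.Agent.Q120.ET Pool.Agent.Q120.MF Pool.Agent.Q120.AD Pool.Agent.Q120.NC
  Pool.Agent.Q120.TD Pool.Agent.Q166.Sq Pool.Agent.Q106.BR
open scoped Topology

/-- The endpoints of the cells. -/
def en (q x i : ℕ) : ℕ := i * x / q

/-- The normalised increments over the cells. -/
noncomputable def dl (S : Set ℕ) (q x i : ℕ) : ℝ := Z S x (en q x i) (en q x (i + 1)) / √(x : ℝ)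

theorem en_mono (q x : ℕ) : Monotone (en q x) := fun i j hij => Nat.div_le_div_right (Nat.mul_le_mul_right x hij)

theorem en_le {q x T i : ℕ} (hq : 1 ≤ q) (hi : i ≤ q * T) : en q x i ≤ T * x := by
  unfold en
  rw [Nat.div_le_iff_le_mul_add_pred (by omega)]
  have : i * x ≤ q * T * x := Nat.mul_le_mul_right x hi
  nlinarith

theorem en_end {q x T : ℕ} (hq : 1 ≤ q) : en q x (q * T) = T * x := by
  unfold en
  rw [mul_assoc, Nat.mul_div_cancel_left _ (by omega)]

theorem en_zero (q x : ℕ) : en q x 0 = 0 := by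
  unfold en
  simp

theorem en_real {q x i : ℕ} (hq : 1 ≤ q) : (en q x i : ℝ) ≤ i * x / q ∧ (i : ℝ) * x / q - 1 ≤ en q x i := by
  have hq0 : (0 : ℝ) < q := by exact_mod_cast hq
  constructor
  · rw [le_div_iff₀ hq0]
    have := Nat.div_mul_le_self (i * x) q
    unfold en
    exact_mod_cast this
  · have h1 : i * x < q * (en q x i + 1) := Nat.lt_mul_div_succ (i * x) (by omega)
    have h2 : (i : ℝ) * x < q * ((en q x i : ℝ) + 1) := by exact_mod_cast h1
    rw [sub_le_iff_le_add, div_le_iff₀ hq0]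
    linarith

theorem en_len {q x i : ℕ} (hq : 1 ≤ q) : (en q x (i + 1) : ℝ) - en q x i ≤ 1 / (q : ℝ) * x + 1 ∧
    1 / (q : ℝ) * x - 1 ≤ (en q x (i + 1) : ℝ) - en q x i := by
  have h1 := en_real (x := x) (i := i) hq
  have h2 := en_real (x := x) (i := i + 1) hq
  have h3 : ((i + 1 : ℕ) : ℝ) * x / q = i * x / q + 1 / q * x := by
    push_cast
    ring
  rw [h3] at h2
  constructor <;> linarith [h1.1, h1.2, h2.1, h2.2]

theorem W_disj {q x i j : ℕ} (hij : i ≠ j) : Disjoint (W x (en q x i) (en q x (i + 1))) (W x (en q x j) (en q x (j + 1))) := by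
  rw [disjoint_left]
  intro n hn hn'
  unfold W at hn hn'
  rw [mem_Ioc] at hn hn'
  rcases lt_or_gt_of_ne hij with h | h
  · have := en_mono q x (show i + 1 ≤ j by omega)
    omega
  · have := en_mono q x (show j + 1 ≤ i by omega)
    omega

section

variable {Ω : Type*} [MeasurableSpace Ω] {μ : Measure Ω} [IsProbabilityMeasure μ] {A : Ω → Set ℕ}

omit [MeasurableSpace Ω] in
theorem dl_sq {q x : ℕ} (hq : 1 ≤ q) (hx : 1 ≤ x) (i : ℕ) (ω : Ω) : (q : ℝ) * dl (A ω) q x i ^ 2 =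
    (((tr A (W x (en q x i) (en q x (i + 1))) ω).card : ℝ) - ((en q x (i + 1) : ℝ) - en q x i) / (2 * Real.log x)) ^ 2 /
      (1 / (q : ℝ) * x) := by
  have hq0 : (0 : ℝ) < q := by exact_mod_cast hq
  have hx0 : (0 : ℝ) < x := by exact_mod_cast hx
  unfold dl Z
  rw [cn_eq, div_pow, Real.sq_sqrt hx0.le]
  field_simp

/-- **The finite-dimensional upper bound.** -/
theorem up_fin (hA : IsCramer μ A) {q : ℕ} (hq : 1 ≤ q) (T : ℕ) {ε : ℝ} (hε : 0 < ε) (hε1 : ε ≤ 1) :
    ∀ᵐ ω ∂μ, ∀ᶠ x : ℕ in atTop, ∑ i ∈ range (q * T), (q : ℝ) * dl (A ω) q x i ^ 2 ≤ 1 + ε := by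
  classical
  obtain ⟨N, hN⟩ : ∃ N, N = q * T := ⟨_, rfl⟩
  rw [← hN]
  obtain ⟨h, hh⟩ : ∃ h, h = ε / (4 * (N + 1)) := ⟨_, rfl⟩
  have hN0 : (0 : ℝ) ≤ N := Nat.cast_nonneg N
  have hh0 : 0 < h := by rw [hh]; positivity
  have hh1 : h ≤ 1 := by
    rw [hh, div_le_one (by positivity)]
    linarith
  have hNh : 4 * (N * h) ≤ ε := by
    have e1 : 4 * (N * h) = ε * (N / (N + 1)) := by
      rw [hh]
      field_simp
    rw [e1]
    have e2 : (N : ℝ) / (N + 1) ≤ 1 := by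
      rw [div_le_one (by positivity)]
      linarith
    nlinarith
  obtain ⟨J, hJ⟩ : ∃ J, J = ⌈2 / h⌉₊ := ⟨_, rfl⟩
  have hJ1 : 2 ≤ h * J := by
    have e1 : 2 / h ≤ J := by rw [hJ]; exact Nat.le_ceil _
    rw [div_le_iff₀ hh0] at e1
    linarith
  have hJ2 : h * J ≤ 3 := by
    have e1 : (J : ℝ) < 2 / h + 1 := by
      rw [hJ]
      exact Nat.ceil_lt_add_one (by positivity)
    have e2 : h * J ≤ h * (2 / h + 1) := mul_le_mul_of_nonneg_left e1.le hh0.le
    have e3 : h * (2 / h + 1) = 2 + h := by field_simp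
    linarith
  -- the events
  have hprob : ∀ᶠ x : ℕ in atTop, ∀ j : Fin N → ℕ, (∀ i, j i ≤ J) → 1 + 3 / 4 * ε ≤ ∑ i, h * j i →
      μ.real {ω | ∀ i : Fin N, h * j i ≤ (q : ℝ) * dl (A ω) q x i ^ 2} ≤
        4 ^ N * Real.exp (-((1 + ε / 2) * Real.log x)) := by
    filter_upwards [tail_W hA T (show (0 : ℝ) < 1 / q by have : (0 : ℝ) < q := by exact_mod_cast hq
                                                         positivity) hh0 hh1, eventually_ge_atTop 3,
      hl.eventually_ge_atTop 1] with x h1 h2 h3 j hj hsum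
    have hset : {ω | ∀ i : Fin N, h * j i ≤ (q : ℝ) * dl (A ω) q x i ^ 2} =
        {ω | ∀ i ∈ (univ : Finset (Fin N)), h * j i ≤
          (((tr A (W x (en q x i) (en q x (i + 1))) ω).card : ℝ) - ((en q x (i + 1) : ℝ) - en q x i) / (2 * Real.log x)) ^ 2 /
          (1 / (q : ℝ) * x)} := by
      ext ω
      simp only [Set.mem_ofPred_eq, mem_univ, true_implies]
      refine forall_congr' (fun i => ?_)
      rw [dl_sq hq (by omega)]
    rw [hset]
    rw [real_all hA univ (fun i : Fin N => W x (en q x i) (en q x (i + 1))) (fun i _ n hn => (mem_W h2 hn).2)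
      (fun i _ k _ hik => W_disj (fun h => hik (Fin.ext h)))
      (fun i T' => h * j i ≤ ((T'.card : ℝ) - ((en q x (i + 1) : ℝ) - en q x i) / (2 * Real.log x)) ^ 2 / (1 / (q : ℝ) * x))]
    have hone : ∀ i : Fin N, ∑ T' ∈ (W x (en q x i) (en q x (i + 1))).powerset with
        (h * j i ≤ ((T'.card : ℝ) - ((en q x (i + 1) : ℝ) - en q x i) / (2 * Real.log x)) ^ 2 / (1 / (q : ℝ) * x)),
        cramerOn (W x (en q x i) (en q x (i + 1))) T' ≤ 4 * Real.exp (-((h * j i - h) * Real.log x)) := by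
      intro i
      rw [← real_pred hA (fun n hn => (mem_W h2 hn).2)
        (fun T' => h * j i ≤ ((T'.card : ℝ) - ((en q x (i + 1) : ℝ) - en q x i) / (2 * Real.log x)) ^ 2 / (1 / (q : ℝ) * x))]
      refine h1 _ _ (en_mono q x (Nat.le_succ _)) (en_le hq ?_) (en_len hq).1 _ (by positivity) ?_
      · have := i.2
        omega
      · have e1 : (j i : ℝ) ≤ J := by exact_mod_cast hj i
        have e2 : h * j i ≤ h * J := mul_le_mul_of_nonneg_left e1 hh0.le
        linarith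
    refine (prod_le_prod (fun i _ => sum_nonneg fun T' hT' => ?_) (fun i _ => hone i)).trans ?_
    · exact cramerOn_nonneg (fun n hn => (mem_W h2 hn).2) (mem_powerset.1 (mem_filter.1 hT').1)
    · rw [prod_mul_distrib, prod_const, card_univ, Fintype.card_fin, ← Real.exp_sum]
      apply mul_le_mul_of_nonneg_left _ (by positivity)
      refine Real.exp_le_exp.2 ?_
      rw [sum_neg_distrib, ← sum_mul, sum_sub_distrib, sum_const, card_univ, Fintype.card_fin, nsmul_eq_mul]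
      refine neg_le_neg (mul_le_mul_of_nonneg_right ?_ (by linarith))
      linarith
  have hsum : Summable (fun x : ℕ => (x : ℝ) ^ (-(1 + ε / 4))) := Real.summable_nat_rpow.2 (by linarith)
  have hgrid := ae_all_grid (μ := μ) (τ := Fin N → ℕ) (fun _ => Fintype.piFinset (fun _ => range (J + 1)))
    (fun x j => {ω | 1 + 3 / 4 * ε ≤ ∑ i, h * j i ∧ ∀ i : Fin N, h * j i ≤ (q : ℝ) * dl (A ω) q x i ^ 2})
    (fun x : ℕ => (x : ℝ) ^ (-(1 + ε / 4))) hsum (by
      filter_upwards [hprob, ev_pw (4 ^ N * (J + 1) ^ N) 0 (show (0 : ℝ) < ε / 4 by linarith), eventually_ge_atTop 1]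
        with x h1 h2 h3
      have hx0 : (0 : ℝ) < x := by exact_mod_cast h3
      have e1 : ∀ j ∈ Fintype.piFinset (fun _ : Fin N => range (J + 1)),
          μ.real {ω | 1 + 3 / 4 * ε ≤ ∑ i, h * j i ∧ ∀ i : Fin N, h * j i ≤ (q : ℝ) * dl (A ω) q x i ^ 2} ≤
            4 ^ N * Real.exp (-((1 + ε / 2) * Real.log x)) := by
        intro j hj
        rw [Fintype.mem_piFinset] at hj
        by_cases hc : 1 + 3 / 4 * ε ≤ ∑ i, h * j i
        · refine (measureReal_mono (fun ω hω => hω.2) (measure_ne_top _ _)).trans (h1 j (fun i => ?_) hc)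
          have := mem_range.1 (hj i)
          omega
        · have : {ω | 1 + 3 / 4 * ε ≤ ∑ i, h * j i ∧ ∀ i : Fin N, h * j i ≤ (q : ℝ) * dl (A ω) q x i ^ 2} = ∅ := by
            ext ω
            simp only [Set.mem_ofPred_eq, Set.mem_empty_iff_false, iff_false, not_and]
            exact fun h' => absurd h' hc
          rw [this, measureReal_empty]
          positivity
      refine (sum_le_sum e1).trans ?_
      rw [sum_const, Fintype.card_piFinset, prod_const, card_univ, Fintype.card_fin, card_range, nsmul_eq_mul]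
      rw [pow_zero, mul_one] at h2
      have e2 : Real.exp (-((1 + ε / 2) * Real.log x)) = (x : ℝ) ^ (-(1 + ε / 4)) * (x : ℝ) ^ (-(ε / 4)) := by
        rw [← Real.rpow_add hx0, Real.rpow_def_of_pos hx0]
        congr 1
        ring
      rw [e2]
      push_cast
      have e3 : 0 < (x : ℝ) ^ (-(1 + ε / 4)) := by positivity
      have e4 : 0 < (x : ℝ) ^ (-(ε / 4)) := by positivity
      have e5 : 4 ^ N * ((J : ℝ) + 1) ^ N * (x : ℝ) ^ (-(ε / 4)) ≤ 1 := by
        calc 4 ^ N * ((J : ℝ) + 1) ^ N * (x : ℝ) ^ (-(ε / 4)) ≤ (x : ℝ) ^ (ε / 4) * (x : ℝ) ^ (-(ε / 4)) :=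
              mul_le_mul_of_nonneg_right h2 e4.le
          _ = 1 := by rw [← Real.rpow_add hx0]; norm_num
      calc ((J : ℝ) + 1) ^ N * (4 ^ N * ((x : ℝ) ^ (-(1 + ε / 4)) * (x : ℝ) ^ (-(ε / 4))))
          = (4 ^ N * ((J : ℝ) + 1) ^ N * (x : ℝ) ^ (-(ε / 4))) * (x : ℝ) ^ (-(1 + ε / 4)) := by ring
        _ ≤ 1 * (x : ℝ) ^ (-(1 + ε / 4)) := mul_le_mul_of_nonneg_right e5 e3.le
        _ = (x : ℝ) ^ (-(1 + ε / 4)) := one_mul _)
  filter_upwards [hgrid] with ω hω
  filter_upwards [hω] with x h1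
  by_contra hcon
  push Not at hcon
  rw [Finset.sum_range] at hcon
  obtain ⟨Y, hY⟩ : ∃ Y : Fin N → ℝ, Y = fun i : Fin N => (q : ℝ) * dl (A ω) q x (i : ℕ) ^ 2 := ⟨_, rfl⟩
  have hY0 : ∀ i, 0 ≤ Y i := fun i => by rw [hY]; positivity
  have hcon' : 1 + ε < ∑ i, Y i := by rw [hY]; exact hcon
  obtain ⟨j, hj⟩ : ∃ j : Fin N → ℕ, j = fun i => min J ⌊Y i / h⌋₊ := ⟨_, rfl⟩
  have hjJ : ∀ i, j i ≤ J := fun i => by rw [hj]; exact min_le_left _ _
  have hjY : ∀ i, h * j i ≤ Y i := by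
    intro i
    have e1 : (j i : ℝ) ≤ Y i / h := by
      have e2 : j i ≤ ⌊Y i / h⌋₊ := by rw [hj]; exact min_le_right _ _
      exact (by exact_mod_cast e2 : (j i : ℝ) ≤ (⌊Y i / h⌋₊ : ℝ)).trans (Nat.floor_le (div_nonneg (hY0 i) hh0.le))
    rw [le_div_iff₀ hh0] at e1
    linarith
  refine h1 j ?_ ⟨?_, ?_⟩
  · rw [Fintype.mem_piFinset]
    intro i
    rw [mem_range]
    have := hjJ i
    omega
  · by_cases hc : ∃ i, j i = J
    · obtain ⟨i, hi⟩ := hc
      have e1 : h * (j i : ℝ) ≤ ∑ i, h * (j i : ℝ) :=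
        single_le_sum (f := fun i => h * (j i : ℝ)) (fun i _ => by positivity) (mem_univ i)
      rw [hi] at e1
      linarith
    · push Not at hc
      have e1 : ∀ i, Y i ≤ h * j i + h := by
        intro i
        have e2 : j i = ⌊Y i / h⌋₊ := by
          have e3 := hc i
          rw [hj] at e3 ⊢
          simp only at e3 ⊢
          rcases min_choice J ⌊Y i / h⌋₊ with e4 | e4
          · exact absurd e4 e3
          · exact e4
        have e3 := Nat.lt_floor_add_one (Y i / h)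
        rw [← e2, div_lt_iff₀ hh0] at e3
        nlinarith
      have e2 := sum_le_sum (fun i (_ : i ∈ (univ : Finset (Fin N))) => e1 i)
      rw [sum_add_distrib, sum_const, card_univ, Fintype.card_fin, nsmul_eq_mul] at e2
      linarith
  · intro i
    have := hjY i
    rw [hY] at this
    exact this

/-- **The oscillation.** -/
theorem osc (hA : IsCramer μ A) {q : ℕ} (hq : 1 ≤ q) (T : ℕ) :
    ∀ᵐ ω ∂μ, ∀ᶠ x : ℕ in atTop, ∀ a b : ℕ, a ≤ b → b ≤ T * x → ((b : ℝ) - a) ≤ 1 / (q : ℝ) * x + 1 →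
      (q : ℝ) * Z (A ω) x a b ^ 2 ≤ 9 * x := by
  classical
  have hq0 : (0 : ℝ) < q := by exact_mod_cast hq
  have hsum : Summable (fun x : ℕ => (x : ℝ) ^ (-(2 : ℝ))) := Real.summable_nat_rpow.2 (by norm_num)
  have hgrid := ae_all_grid (μ := μ) (τ := ℕ × ℕ) (fun x => range (T * x + 1) ×ˢ range (T * x + 1))
    (fun x ab => {ω | ab.1 ≤ ab.2 ∧ ((ab.2 : ℝ) - ab.1) ≤ 1 / (q : ℝ) * x + 1 ∧
      9 ≤ (((tr A (W x ab.1 ab.2) ω).card : ℝ) - ((ab.2 : ℝ) - ab.1) / (2 * Real.log x)) ^ 2 / (1 / (q : ℝ) * x)})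
    (fun x : ℕ => (x : ℝ) ^ (-(2 : ℝ))) hsum (by
      filter_upwards [tail_W hA T (show (0 : ℝ) < 1 / q by positivity) one_pos le_rfl, eventually_ge_atTop 3,
        ev_pw (4 * (T + 1) ^ 2) 0 (show (0 : ℝ) < 1 by norm_num)] with x h1 h2 h3
      have hx3 : (3 : ℝ) ≤ x := by exact_mod_cast h2
      have hx0 : (0 : ℝ) < x := by linarith
      rw [pow_zero, mul_one, Real.rpow_one] at h3
      have e1 : ∀ ab ∈ range (T * x + 1) ×ˢ range (T * x + 1),
          μ.real {ω | ab.1 ≤ ab.2 ∧ ((ab.2 : ℝ) - ab.1) ≤ 1 / (q : ℝ) * x + 1 ∧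
            9 ≤ (((tr A (W x ab.1 ab.2) ω).card : ℝ) - ((ab.2 : ℝ) - ab.1) / (2 * Real.log x)) ^ 2 / (1 / (q : ℝ) * x)} ≤
          4 * Real.exp (-((9 - 1) * Real.log x)) := by
        rintro ⟨a, b⟩ hab
        rw [mem_product, mem_range, mem_range] at hab
        by_cases hc : a ≤ b ∧ ((b : ℝ) - a) ≤ 1 / (q : ℝ) * x + 1
        · refine (measureReal_mono (fun ω hω => hω.2.2) (measure_ne_top _ _)).trans
            (h1 a b hc.1 (by omega) hc.2 9 (by norm_num) (by norm_num))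
        · have : {ω | (a, b).1 ≤ (a, b).2 ∧ (((a, b).2 : ℝ) - (a, b).1) ≤ 1 / (q : ℝ) * x + 1 ∧
              9 ≤ (((tr A (W x (a, b).1 (a, b).2) ω).card : ℝ) - (((a, b).2 : ℝ) - (a, b).1) / (2 * Real.log x)) ^ 2 /
                (1 / (q : ℝ) * x)} = ∅ := by
            ext ω
            simp only [Set.mem_ofPred_eq, Set.mem_empty_iff_false, iff_false]
            rintro ⟨h4, h5, _⟩
            exact hc ⟨h4, h5⟩
          rw [this, measureReal_empty]
          positivity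
      refine (sum_le_sum e1).trans ?_
      rw [sum_const, card_product, card_range, nsmul_eq_mul]
      have e2 : Real.exp (-((9 - 1) * Real.log (x : ℝ))) = (x : ℝ) ^ (-(8 : ℝ)) := by
        rw [Real.rpow_def_of_pos hx0]
        congr 1
        ring
      rw [e2]
      push_cast
      have e3 : (x : ℝ) ^ (-(8 : ℝ)) = (x : ℝ) ^ (-(2 : ℝ)) * (x : ℝ) ^ (-(6 : ℝ)) := by
        rw [← Real.rpow_add hx0]
        norm_num
      have e4 : (x : ℝ) ^ (-(6 : ℝ)) * x ^ 6 = 1 := by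
        rw [← Real.rpow_natCast, ← Real.rpow_add hx0]
        norm_num
      have e5 : ((T : ℝ) * x + 1) * (T * x + 1) * 4 ≤ x ^ 6 := by
        have e6 : ((T : ℝ) * x + 1) ≤ (T + 1) * x := by nlinarith
        have hT0 : (0 : ℝ) ≤ T := Nat.cast_nonneg T
        calc ((T : ℝ) * x + 1) * (T * x + 1) * 4 ≤ ((T + 1) * x) * ((T + 1) * x) * 4 := by gcongr
          _ = 4 * (T + 1) ^ 2 * x ^ 2 := by ring
          _ ≤ x * x ^ 2 := mul_le_mul_of_nonneg_right h3 (by positivity)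
          _ = x ^ 3 := by ring
          _ ≤ x ^ 6 := pow_le_pow_right₀ (by linarith) (by norm_num)
      have e6 : 0 < (x : ℝ) ^ (-(6 : ℝ)) := by positivity
      have e7 : 0 < (x : ℝ) ^ (-(2 : ℝ)) := by positivity
      rw [e3]
      calc ((T : ℝ) * x + 1) * (T * x + 1) * (4 * ((x : ℝ) ^ (-(2 : ℝ)) * (x : ℝ) ^ (-(6 : ℝ))))
          = (((T : ℝ) * x + 1) * (T * x + 1) * 4) * (x : ℝ) ^ (-(6 : ℝ)) * (x : ℝ) ^ (-(2 : ℝ)) := by ring
        _ ≤ x ^ 6 * (x : ℝ) ^ (-(6 : ℝ)) * (x : ℝ) ^ (-(2 : ℝ)) := by gcongr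
        _ = (x : ℝ) ^ (-(2 : ℝ)) := by rw [mul_comm ((x : ℝ) ^ 6), e4, one_mul])
  filter_upwards [hgrid] with ω hω
  filter_upwards [hω, eventually_ge_atTop 1] with x h1 h2 a b hab hbT hlen
  have hx0 : (0 : ℝ) < x := by exact_mod_cast h2
  by_contra hcon
  push Not at hcon
  refine h1 (a, b) (mem_product.2 ⟨mem_range.2 (by show a < T * x + 1; omega), mem_range.2 (by show b < T * x + 1; omega)⟩)
    ⟨hab, hlen, ?_⟩
  show 9 ≤ (((tr A (W x a b) ω).card : ℝ) - ((b : ℝ) - a) / (2 * Real.log x)) ^ 2 / (1 / (q : ℝ) * x)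
  rw [le_div_iff₀ (by positivity)]
  unfold Z at hcon
  rw [cn_eq] at hcon
  have e1 : 9 * (1 / (q : ℝ) * x) = 9 * x / q := by ring
  rw [e1, div_le_iff₀ hq0]
  linarith

end

end Pool.Agent.Q106.OP
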