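import Pool.Agent.Q106.BR.Low

/-!
# Windows after `x (x - 1)` in Cramér's model: mean and tail
-/

set_option autoImplicit false

namespace Pool.Agent.Q106.OP

open Finset MeasureTheory Filter Pool.Agent.Q120.ET Pool.Agent.Q120.MF Pool.Agent.Q120.AD Pool.Agent.Q120.NC
  Pool.Agent.Q120.TD Pool.Agent.Q166.Sq Pool.Agent.Q106.BR
open scoped Topology

/-- The base point `x² - x`. -/
def bs (x : ℕ) : ℕ := x * (x - 1)

/-- The window of the integers `n` with `x² - x + a < n ≤ x² - x + b`. -/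
def W (x a b : ℕ) : Finset ℕ := Ioc (bs x + a) (bs x + b)

theorem card_W (x a b : ℕ) : (W x a b).card = b - a := by
  unfold W
  rw [Nat.card_Ioc]
  omega

theorem bs_cast {x : ℕ} (hx : 1 ≤ x) : ((bs x : ℕ) : ℝ) = (x : ℝ) ^ 2 - x := by
  unfold bs
  rw [Nat.cast_mul, Nat.cast_sub hx]
  push_cast
  ring

theorem mem_W {x a b n : ℕ} (hx : 3 ≤ x) (h : n ∈ W x a b) : x ≤ n ∧ 3 ≤ n := by
  unfold W at h
  rw [mem_Ioc] at h
  have h1 : x ≤ bs x := by
    unfold bs
    exact Nat.le_mul_of_pos_right x (by omega)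
  omega

/-- The mean. -/
theorem mu_W (T : ℕ) : ∀ᶠ x : ℕ in atTop, ∀ a b : ℕ, a ≤ b → b ≤ T * x →
    |mu (W x a b) - ((b : ℝ) - a) / (2 * Real.log x)| ≤ 1 := by
  filter_upwards [hl.eventually_ge_atTop ((T : ℝ) * (T + 2) + 1), eventually_ge_atTop 3] with x h1 h2 a b hab hbT
  have hx3 : (3 : ℝ) ≤ x := by exact_mod_cast h2
  obtain ⟨L, hL⟩ : ∃ L, L = Real.log (x : ℝ) := ⟨_, rfl⟩
  rw [← hL] at h1 ⊢
  have hT0 : (0 : ℝ) ≤ T := Nat.cast_nonneg T
  have hL1 : 1 ≤ L := by nlinarith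
  have hterm : ∀ n ∈ W x a b, |1 / Real.log (n : ℝ) - 1 / (2 * L)| ≤ (T + 2) / (x * (2 * L)) := by
    intro n hn
    have hn3 := (mem_W h2 hn).2
    have hln := one_lt_log hn3
    unfold W at hn
    rw [mem_Ioc] at hn
    have hn0 : (0 : ℝ) < n := by exact_mod_cast (show 0 < n by omega)
    have e1 : (x : ℝ) ^ 2 - x ≤ n := by
      rw [← bs_cast (show 1 ≤ x by omega)]
      exact_mod_cast (show bs x ≤ n by omega)
    have e2 : (n : ℝ) ≤ (x : ℝ) ^ 2 + T * x := by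
      have e3 : (n : ℝ) ≤ (bs x : ℝ) + b := by exact_mod_cast hn.2
      have e4 : (b : ℝ) ≤ T * x := by exact_mod_cast hbT
      rw [bs_cast (show 1 ≤ x by omega)] at e3
      linarith
    -- upper and lower bound for log n
    have e3 : Real.log (n : ℝ) ≤ 2 * L + T / x := by
      refine (Real.log_le_log hn0 e2).trans ?_
      have e4 : (x : ℝ) ^ 2 + T * x = x ^ 2 * (1 + T / x) := by field_simp
      rw [e4, Real.log_mul (by positivity) (by positivity), Real.log_pow, ← hL]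
      have e5 := Real.log_le_sub_one_of_pos (show (0 : ℝ) < 1 + T / x by positivity)
      push_cast
      linarith
    have e4 : 2 * L - 2 / x ≤ Real.log (n : ℝ) := by
      have e5 : (0 : ℝ) < (x : ℝ) ^ 2 - x := by nlinarith
      refine le_trans ?_ (Real.log_le_log e5 e1)
      have e6 : (x : ℝ) ^ 2 - x = x ^ 2 * (1 - 1 / x) := by field_simp
      have e7 : (1 : ℝ) / x ≤ 1 / 3 := one_div_le_one_div_of_le (by norm_num) hx3
      rw [e6, Real.log_mul (by positivity) (by linarith), Real.log_pow, ← hL]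
      have e8 := Real.one_sub_inv_le_log_of_pos (show (0 : ℝ) < 1 - 1 / x by linarith)
      have e9 : -(2 / (x : ℝ)) ≤ 1 - (1 - 1 / (x : ℝ))⁻¹ := by
        have e10 : (1 - 1 / (x : ℝ))⁻¹ ≤ 1 + 2 / x := by
          rw [inv_le_iff_one_le_mul₀ (by linarith)]
          have e11 : (0 : ℝ) < 1 / x := by positivity
          have e12 : (2 : ℝ) / x = 2 * (1 / x) := by ring
          rw [e12]
          nlinarith
        linarith
      push_cast
      linarith
    have e5 : |2 * L - Real.log (n : ℝ)| ≤ (T + 2) / x := by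
      have e6 : ((T : ℝ) + 2) / x = T / x + 2 / x := by ring
      have e7 : (0 : ℝ) ≤ T / x := by positivity
      have e8 : (0 : ℝ) ≤ 2 / (x : ℝ) := by positivity
      rw [e6, abs_le]
      constructor <;> linarith
    have e6 : 1 / Real.log (n : ℝ) - 1 / (2 * L) = (2 * L - Real.log n) / (Real.log n * (2 * L)) := by
      field_simp
    rw [e6, abs_div, abs_of_pos (show 0 < Real.log (n : ℝ) * (2 * L) by positivity), div_le_div_iff₀ (by positivity) (by positivity)]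
    calc |2 * L - Real.log (n : ℝ)| * (x * (2 * L)) ≤ (T + 2) / x * (x * (2 * L)) :=
          mul_le_mul_of_nonneg_right e5 (by positivity)
      _ = (T + 2) * (1 * (2 * L)) := by field_simp
      _ ≤ (T + 2) * (Real.log n * (2 * L)) := by gcongr
  have e1 : mu (W x a b) - ((b : ℝ) - a) / (2 * L) = ∑ n ∈ W x a b, (1 / Real.log (n : ℝ) - 1 / (2 * L)) := by
    unfold mu
    rw [sum_sub_distrib, sum_const, card_W, nsmul_eq_mul, Nat.cast_sub hab]
    ring
  rw [e1]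
  refine (abs_sum_le_sum_abs _ _).trans ((sum_le_sum hterm).trans ?_)
  rw [sum_const, card_W, nsmul_eq_mul, Nat.cast_sub hab]
  have e2 : (b : ℝ) ≤ T * x := by exact_mod_cast hbT
  have e3 : (0 : ℝ) ≤ a := Nat.cast_nonneg a
  rw [← mul_div_assoc, div_le_one (by positivity)]
  calc ((b : ℝ) - a) * (T + 2) ≤ T * x * (T + 2) := by gcongr; linarith
    _ = x * (T * (T + 2)) := by ring
    _ ≤ x * (2 * L) := mul_le_mul_of_nonneg_left (by linarith) (by linarith)

open Classical in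
/-- The number of the elements of `S` in the window. -/
noncomputable def cn (S : Set ℕ) (x a b : ℕ) : ℕ := ((W x a b).filter (fun n => n ∈ S)).card

/-- The centred number. -/
noncomputable def Z (S : Set ℕ) (x a b : ℕ) : ℝ := cn S x a b - ((b : ℝ) - a) / (2 * Real.log x)

section

variable {Ω : Type*} [MeasurableSpace Ω] {μ : Measure Ω} [IsProbabilityMeasure μ] {A : Ω → Set ℕ}

omit [MeasurableSpace Ω] in
theorem cn_eq (ω : Ω) (x a b : ℕ) : cn (A ω) x a b = (tr A (W x a b) ω).card := rfl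

/-- The tail. -/
theorem tail_W (hA : IsCramer μ A) (T : ℕ) {δ η : ℝ} (hδ : 0 < δ) (hη : 0 < η) (hη1 : η ≤ 1) : ∀ᶠ x : ℕ in atTop,
    ∀ a b : ℕ, a ≤ b → b ≤ T * x → ((b : ℝ) - a) ≤ δ * x + 1 → ∀ v : ℝ, 0 ≤ v → v ≤ 20 →
    μ.real {ω | v ≤ (((tr A (W x a b) ω).card : ℝ) - ((b : ℝ) - a) / (2 * Real.log x)) ^ 2 / (δ * x)} ≤
      4 * Real.exp (-((v - η) * Real.log x)) := by
  obtain ⟨θ, hθ⟩ : ∃ θ, θ = η / 80 := ⟨_, rfl⟩
  have hθ0 : 0 < θ := by rw [hθ]; positivity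
  have hθ1 : θ ≤ 1 / 80 := by rw [hθ]; linarith
  filter_upwards [mu_W T, ev_pw (((12 / θ) ^ 2 + 1) / δ / η) 2 (show (0 : ℝ) < 1 by norm_num), hl.eventually_ge_atTop 1,
    eventually_ge_atTop 3] with x h1 h2 h3 h4 a b hab hbT hlen v hv0 hv20
  have hmu := h1 a b hab hbT
  have hx3 : (3 : ℝ) ≤ x := by exact_mod_cast h4
  rw [Real.rpow_one] at h2
  obtain ⟨L, hL⟩ : ∃ L, L = Real.log (x : ℝ) := ⟨_, rfl⟩
  rw [← hL] at h2 h3 hmu ⊢
  have hL0 : 0 < L := by linarith
  rcases le_or_gt v η with hvη | hvη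
  · have e1 : (1 : ℝ) ≤ Real.exp (-((v - η) * L)) := by
      rw [Real.one_le_exp_iff]
      nlinarith
    have e2 : μ.real {ω | v ≤ (((tr A (W x a b) ω).card : ℝ) - ((b : ℝ) - a) / (2 * L)) ^ 2 / (δ * x)} ≤ 1 :=
      measureReal_le_one
    linarith
  -- r = √(δ x)
  obtain ⟨r, hr⟩ : ∃ r, r = √(δ * x) := ⟨_, rfl⟩
  have hδx : 0 < δ * x := by positivity
  have hr0 : 0 < r := by rw [hr]; exact Real.sqrt_pos.2 hδx
  have hr2 : r ^ 2 = δ * x := by rw [hr]; exact Real.sq_sqrt hδx.le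
  obtain ⟨q, hq⟩ : ∃ q, q = √v := ⟨_, rfl⟩
  have hv : 0 < v := by linarith
  have hq0 : 0 < q := by rw [hq]; exact Real.sqrt_pos.2 hv
  have hq2 : q ^ 2 = v := by rw [hq]; exact Real.sq_sqrt hv.le
  have hq5 : q ≤ 5 := by
    refine le_of_sq_le_sq ?_ (by norm_num)
    rw [hq2]
    linarith
  -- the size of x
  have hbig : ((12 / θ) ^ 2 + 1) * L ^ 2 ≤ η * r ^ 2 := by
    rw [hr2]
    have e1 : ((12 / θ) ^ 2 + 1) / δ / η * L ^ 2 = ((12 / θ) ^ 2 + 1) * L ^ 2 / (δ * η) := by field_simp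
    rw [e1, div_le_iff₀ (by positivity)] at h2
    linarith
  have hηr : η * r ^ 2 ≤ r ^ 2 := mul_le_of_le_one_left (by positivity) hη1
  have hrL : 12 * L ≤ θ * r := by
    refine le_of_sq_le_sq (?_ : (12 * L) ^ 2 ≤ (θ * r) ^ 2) (by positivity)
    have e1 : (12 / θ) ^ 2 * L ^ 2 ≤ r ^ 2 := by nlinarith [sq_nonneg L]
    rw [div_pow, div_mul_eq_mul_div, div_le_iff₀ (by positivity)] at e1
    nlinarith
  have hqr : 12 ≤ θ * (q * r) := by
    refine le_of_sq_le_sq (?_ : (12 : ℝ) ^ 2 ≤ (θ * (q * r)) ^ 2) (by positivity)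
    rw [mul_pow, mul_pow, hq2]
    have e1 : (12 / θ) ^ 2 ≤ η * r ^ 2 := by
      have e2 : (12 / θ) ^ 2 * 1 ≤ ((12 / θ) ^ 2 + 1) * L ^ 2 :=
        mul_le_mul (by linarith) (by nlinarith) (by norm_num) (by positivity)
      linarith
    rw [div_pow, div_le_iff₀ (by positivity)] at e1
    have e2 : η * r ^ 2 * θ ^ 2 ≤ v * r ^ 2 * θ ^ 2 := by gcongr
    nlinarith
  obtain ⟨t, ht⟩ : ∃ t, t = q * r - 2 := ⟨_, rfl⟩
  obtain ⟨M, hM⟩ : ∃ M, M = (1 + θ) * (r ^ 2 / (2 * L)) := ⟨_, rfl⟩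
  have hqr12 : 12 ≤ q * r := by nlinarith [mul_pos hq0 hr0]
  have ht0 : 0 < t := by linarith
  have htq : (1 - θ) * (q * r) ≤ t := by rw [ht]; nlinarith
  have hM0 : 0 < M := by rw [hM]; positivity
  have hrM : 6 * r ≤ θ * (r ^ 2 / (2 * L)) := by
    rw [← mul_div_assoc, le_div_iff₀ (by positivity)]
    nlinarith
  have hmuM : mu (W x a b) ≤ M := by
    have e1 := (abs_le.1 hmu).2
    have e2 : ((b : ℝ) - a) / (2 * L) ≤ (r ^ 2 + 1) / (2 * L) := by
      apply div_le_div_of_nonneg_right _ (by positivity)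
      rw [hr2]
      exact hlen
    have e3 : (r ^ 2 + 1) / (2 * L) ≤ r ^ 2 / (2 * L) + 1 := by
      rw [add_div]
      have : 1 / (2 * L) ≤ 1 := by
        rw [div_le_one (by positivity)]
        linarith
      linarith
    have e4 : 12 ≤ r := by nlinarith
    rw [hM]
    nlinarith
  have htM : t ≤ θ * M := by
    have e1 : t ≤ 5 * r := by rw [ht]; nlinarith
    have e2 : r ^ 2 / (2 * L) ≤ M := by
      rw [hM]
      have : 0 ≤ θ * (r ^ 2 / (2 * L)) := by positivity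
      linarith
    have e3 : θ * (r ^ 2 / (2 * L)) ≤ θ * M := mul_le_mul_of_nonneg_left e2 hθ0.le
    linarith
  have htM1 : t ≤ M := by nlinarith
  have hmain := tail_two hA (fun n hn => (mem_W h4 hn).2) hmuM ht0 htM1
  refine (measureReal_mono (μ := μ) (fun ω hω => ?_) (measure_ne_top _ _)).trans (hmain.trans ?_)
  · have e1 : v ≤ (((tr A (W x a b) ω).card : ℝ) - ((b : ℝ) - a) / (2 * L)) ^ 2 / (δ * x) := hω
    rw [le_div_iff₀ (by positivity), ← hr2] at e1
    show t < |((tr A (W x a b) ω).card : ℝ) - mu (W x a b)|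
    have e2 : (q * r) ^ 2 ≤ |((tr A (W x a b) ω).card : ℝ) - ((b : ℝ) - a) / (2 * L)| ^ 2 := by
      rw [sq_abs, mul_pow, hq2]
      exact e1
    have e3 := le_of_sq_le_sq e2 (abs_nonneg _)
    have e4 := abs_sub_abs_le_abs_sub (((tr A (W x a b) ω).card : ℝ) - ((b : ℝ) - a) / (2 * L))
      (mu (W x a b) - ((b : ℝ) - a) / (2 * L))
    have e5 : (((tr A (W x a b) ω).card : ℝ) - ((b : ℝ) - a) / (2 * L)) - (mu (W x a b) - ((b : ℝ) - a) / (2 * L)) =
        ((tr A (W x a b) ω).card : ℝ) - mu (W x a b) := by ring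
    rw [e5] at e4
    rw [ht]
    linarith
  · apply mul_le_mul_of_nonneg_left _ (by norm_num)
    refine Real.exp_le_exp.2 (neg_le_neg ?_)
    have e1 : ((1 - θ) * (q * r)) ^ 2 ≤ t ^ 2 := pow_le_pow_left₀ (mul_nonneg (by linarith) (by positivity)) htq 2
    have e2 : v * (1 - θ) ^ 2 * L / (1 + θ) ≤ t ^ 2 / (2 * M) := by
      rw [hM, div_le_div_iff₀ (by positivity) (by positivity)]
      have e3 : v * (1 - θ) ^ 2 * L * (2 * ((1 + θ) * (r ^ 2 / (2 * L)))) = ((1 - θ) * (q * r)) ^ 2 * (1 + θ) := by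
        rw [mul_pow (1 - θ), mul_pow q, hq2]
        field_simp
      rw [e3]
      exact mul_le_mul_of_nonneg_right e1 (by linarith)
    have e3 : 1 - θ ≤ 1 - t / M := by
      have : t / M ≤ θ := by
        rw [div_le_iff₀ hM0]
        exact htM
      linarith
    have e4 : v * (1 - 3 * θ) * L ≤ v * (1 - θ) ^ 2 * L / (1 + θ) := by
      rw [le_div_iff₀ (by positivity)]
      have e5 : (1 - 3 * θ) * (1 + θ) ≤ (1 - θ) ^ 2 := by nlinarith [sq_nonneg θ]
      have e6 : v * L * ((1 - 3 * θ) * (1 + θ)) ≤ v * L * (1 - θ) ^ 2 := mul_le_mul_of_nonneg_left e5 (by positivity)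
      nlinarith
    have e5 : v * (1 - 3 * θ) * L * (1 - θ) ≤ t ^ 2 / (2 * M) * (1 - t / M) :=
      mul_le_mul (e4.trans e2) e3 (by linarith) (by positivity)
    refine le_trans ?_ e5
    have e6 : v - η ≤ v * (1 - 3 * θ) * (1 - θ) := by
      have e7 : v * (1 - 3 * θ) * (1 - θ) = v - 4 * v * θ + 3 * v * θ ^ 2 := by ring
      rw [e7]
      have e8 : 0 ≤ 3 * v * θ ^ 2 := by positivity
      have e9 : 4 * v * θ ≤ η := by
        rw [hθ]
        nlinarith
      linarith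
    nlinarith

end

end Pool.Agent.Q106.OP
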